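import Pool.Agent.H23R2.CycWord

/-!
# Additivity of `x ↦ T (x ^ (p ^ k))` modulo `p` under weak trace conditions
-/

set_option autoImplicit false
set_option linter.unusedSectionVars false

namespace Pool.Agent.H23R2.Odd

open Finset Pool.Agent.H23R2 Pool.Agent.H23R2.Cyc

lemma mpr_const {n : ℕ} {A : Type*} [Monoid A] (a : A) (c : ZMod n) (m : ℕ) :
    mpr (fun _ => a) c m = a ^ m := by
  induction m with
  | zero => rw [pow_zero]; rfl
  | succ m ih => rw [mpr, ih, pow_succ]

/-- products of `m` elements of `K` -/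
lemma mpr_mem {n : ℕ} {A : Type*} [Monoid A] (K : Set A) (L : ℕ → Set A)
    (h1 : ∀ x ∈ K, x ∈ L 1) (hs : ∀ m, 1 ≤ m → ∀ x ∈ L m, ∀ y ∈ K, x * y ∈ L (m + 1))
    (g : ZMod n → A) (hg : ∀ i, g i ∈ K) (c : ZMod n) (m : ℕ) (hm : 1 ≤ m) :
    mpr g c m ∈ L m := by
  obtain ⟨m, rfl⟩ : ∃ m', m = m' + 1 := ⟨m - 1, by omega⟩
  induction m with
  | zero =>
    rw [mpr, mpr, one_mul]
    exact h1 _ (hg _)
  | succ m ih =>
    rw [mpr]
    exact hs _ (by omega) _ (ih (by omega)) _ (hg _)

lemma rotK {n : ℕ} {A M : Type*} [Monoid A] (F : A → M) (K : Set A) (L : Set A)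
    (hL : ∀ g : ZMod n → A, (∀ i, g i ∈ K) → ∀ c, mpr g c (n - 1) ∈ L)
    (hF : ∀ x ∈ K, ∀ y ∈ L, F (x * y) = F (y * x)) (g : ZMod n → A) (hg : ∀ i, g i ∈ K)
    (hn : n ≠ 0) (c : ZMod n) : F (mpr (shift c g) 0 n) = F (mpr g 0 n) := by
  have one : ∀ g : ZMod n → A, (∀ i, g i ∈ K) → F (mpr (shift 1 g) 0 n) = F (mpr g 0 n) := by
    intro g hg
    obtain ⟨n', rfl⟩ : ∃ n', n = n' + 1 := ⟨n - 1, by omega⟩
    rw [mpr_shift, zero_add]
    have h1 : mpr g 1 (n' + 1) = mpr g 1 n' * g 0 := by
      rw [mpr]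
      congr 2
      have : ((n' + 1 : ℕ) : ZMod (n' + 1)) = 0 := ZMod.natCast_self _
      push_cast at this
      exact (add_comm _ _).trans this
    have h2 : mpr g 0 (n' + 1) = g 0 * mpr g 1 n' := by
      rw [mpr_succ', zero_add]
    rw [h1, h2, hF _ (hg 0) _ (by simpa using hL g hg 1)]
  have key : ∀ m : ℕ, F (mpr (shift (m : ZMod n) g) 0 n) = F (mpr g 0 n) := by
    intro m
    induction m with
    | zero => simp
    | succ m ih =>
      rw [← ih, ← one (shift (m : ZMod n) g) (fun i => hg _), shift_shift]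
      congr 4
      push_cast
      ring
  have : NeZero n := ⟨hn⟩
  have h := key c.val
  rwa [ZMod.natCast_zmod_val] at h

open Classical in
/-- The value on a `p ^ k`-th power, modulo `p`. -/
theorem sum_ppow {S A M : Type*} [Fintype S] [Ring A] [AddCommGroup M] (T : A →+ M)
    {p : ℕ} (k n : ℕ) [hp : Fact p.Prime] [NeZero n]
    (hn : n = p ^ k) (hM : ∀ x : M, p • x = 0) (a : S → A)
    (hinv : ∀ (c : ZMod n) (w : ZMod n → S),
      T (mpr (shift c fun i => a (w i)) 0 n) = T (mpr (fun i => a (w i)) 0 n)) :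
    T ((∑ s, a s) ^ n) = ∑ s, T (a s ^ n) := by
  have hn0 : n ≠ 0 := NeZero.ne n
  let _ := rotAction n S
  rw [sum_pow_cyc a n, map_sum]
  set F : (ZMod n → S) → M := fun w => T (mpr (fun i => a (w i)) 0 n) with hF
  have hinv' : ∀ (c : ZMod n) w, F (shift c w) = F w := fun c w => hinv c w
  set P : (ZMod n → S) → Prop := fun w => shift 1 w = w with hP
  have hPinv : ∀ (c : ZMod n) w, P (shift c w) ↔ P w := by
    intro c w
    simp only [hP]
    rw [shift_shift, add_comm, ← shift_shift]
    constructor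
    · intro h
      have := congrArg (shift (-c)) h
      rwa [shift_neg_shift, shift_neg_shift] at this
    · intro h
      rw [h]
  have hzero : ∑ w, (if P w then 0 else F w) = 0 := by
    refine sum_orbits (G := ZMod n) _ ?_ ?_
    · intro c w
      show (if P (shift c w) then 0 else F (shift c w)) = _
      simp only [hPinv, hinv']
    · intro w
      by_cases hw : P w
      · simp [hw]
      · simp only [hw, if_false]
        have h1 : Nat.card (AddAction.orbit (ZMod n) w) =
            (AddAction.stabilizer (ZMod n) w).index :=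
          (AddAction.index_stabilizer (ZMod n) w).symm
        rw [h1]
        have h2 : (AddAction.stabilizer (ZMod n) w).index ∣ p ^ k := by
          have h0 := (AddAction.stabilizer (ZMod n) w).index_dvd_card
          rw [Nat.card_zmod] at h0
          exact h0.trans hn.dvd
        obtain ⟨i, _, hi⟩ := (Nat.dvd_prime_pow hp.out).mp h2
        have h3 : i ≠ 0 := by
          rintro rfl
          apply hw
          have h4 := AddSubgroup.nsmul_index_mem (AddAction.stabilizer (ZMod n) w)
            (1 : ZMod n)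
          rw [hi, pow_zero, one_nsmul] at h4
          exact h4
        obtain ⟨j, rfl⟩ : ∃ j, i = j + 1 := ⟨i - 1, by omega⟩
        rw [hi, pow_succ, mul_smul, hM, smul_zero]
  have hsplit : ∑ w, F w = ∑ w, (if P w then F w else 0) := by
    have h1 : ∀ w, F w = (if P w then F w else 0) + (if P w then 0 else F w) := by
      intro w
      split_ifs <;> simp
    rw [Finset.sum_congr rfl fun w _ => h1 w, Finset.sum_add_distrib, hzero, add_zero]
  rw [hsplit, ← Finset.sum_filter]
  have hconst : ∀ w : ZMod n → S, P w → ∀ i, w i = w 0 := by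
    intro w hw i
    have key : ∀ m : ℕ, w (m : ZMod n) = w 0 := by
      intro m
      induction m with
      | zero => simp
      | succ m ih =>
        rw [← ih]
        have h5 := congrFun hw (m : ZMod n)
        rw [shift_apply] at h5
        rw [← h5]
        push_cast
        rfl
    have h := key i.val
    rwa [ZMod.natCast_zmod_val] at h
  refine Finset.sum_bij' (fun w _ => w 0) (fun s _ => fun _ => s) ?_ ?_ ?_ ?_ ?_
  · intro w _; exact mem_univ _
  · intro s _
    rw [mem_filter]
    exact ⟨mem_univ _, rfl⟩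
  · intro w hw
    funext i
    exact (hconst w (mem_filter.mp hw).2 i).symm
  · intro s _; rfl
  · intro w hw
    have h6 : w = fun _ => w 0 := funext fun i => hconst w (mem_filter.mp hw).2 i
    show T (mpr (fun i => a (w i)) 0 n) = T (a (w 0) ^ n)
    have h7 : (fun i => a (w i)) = fun _ : ZMod n => a (w 0) := by
      funext i
      rw [hconst w (mem_filter.mp hw).2 i]
    rw [h7, mpr_const]

/-- additivity of `x ↦ T (x ^ (p ^ k))` on `K` -/
theorem add_ppow {A M : Type*} [Ring A] [AddCommGroup M] (T : A →+ M)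
    {p : ℕ} (k : ℕ) [hp : Fact p.Prime] (hM : ∀ x : M, p • x = 0)
    (K : Set A) (L : ℕ → Set A)
    (h1 : ∀ x ∈ K, x ∈ L 1) (hs : ∀ m, 1 ≤ m → ∀ x ∈ L m, ∀ y ∈ K, x * y ∈ L (m + 1))
    (hk : 1 ≤ k)
    (hT : ∀ x ∈ K, ∀ y ∈ L (p ^ k - 1), T (x * y) = T (y * x)) (x y : A) (hx : x ∈ K)
    (hy : y ∈ K) : T ((x + y) ^ (p ^ k)) = T (x ^ (p ^ k)) + T (y ^ (p ^ k)) := by
  have hn0 : p ^ k ≠ 0 := pow_ne_zero _ hp.out.ne_zero
  have hn2 : 2 ≤ p ^ k := by
    calc 2 ≤ p := hp.out.two_le
      _ = p ^ 1 := (pow_one p).symm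
      _ ≤ p ^ k := Nat.pow_le_pow_right hp.out.pos hk
  have : NeZero (p ^ k) := ⟨hn0⟩
  have h := sum_ppow T k (p ^ k) rfl hM (fun b : Bool => if b then x else y) (by
    intro c w
    refine rotK (n := p ^ k) (fun z => T z) K (L (p ^ k - 1)) ?_ hT _ ?_ hn0 c
    · intro g hg c
      exact mpr_mem K L h1 hs g hg c _ (by omega)
    · intro i
      show (if w i then x else y) ∈ K
      split_ifs <;> assumption)
  simpa using h

end Pool.Agent.H23R2.Odd
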