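import Pool.Agent.H23R2.Ch.Main
import Pool.Agent.H23R2.Odd.PPow

/-!
# The algebraic core of the theorem on odd cycles: general facts
-/

set_option autoImplicit false
set_option linter.unusedSectionVars false
set_option linter.unusedSimpArgs false

namespace Pool.Agent.H23R2.Odd

open Finset Pool.Agent.H23R2 Pool.Agent.H23R2.Cyc Pool.Agent.H23R2.Ch
open scoped Pointwise

variable {F : Type*} [Monoid F] {M : Type*} [AddCommGroup M]
  {d : Type*} [Fintype d] [DecidableEq d] {G : Type*} [Group G]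

lemma cut_pos (π : F →* G) (c : G → Prop) (Φ : F → M) {h : G} (hc : c h) {x : MonoidAlgebra ℤ F}
    (hx : x ∈ Hm ℤ π h) : ex (cut π c Φ) x = ex Φ x := by
  have h1 : Set.EqOn (ex (k := ℤ) (cut π c Φ)) (ex Φ)
      {x | ∃ f, π f = h ∧ MonoidAlgebra.single f 1 = x} := by
    rintro _ ⟨f, hf, rfl⟩
    rw [ex_one_single, ex_one_single, cut, if_pos (hf ▸ hc)]
  exact LinearMap.eqOn_span h1 hx

lemma cut_neg (π : F →* G) (c : G → Prop) (Φ : F → M) {h : G} (hc : ¬ c h)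
    {x : MonoidAlgebra ℤ F} (hx : x ∈ Hm ℤ π h) : ex (cut π c Φ) x = 0 := by
  have h1 : Set.EqOn (ex (k := ℤ) (cut π c Φ)) (0 : MonoidAlgebra ℤ F →ₗ[ℤ] M)
      {x | ∃ f, π f = h ∧ MonoidAlgebra.single f 1 = x} := by
    rintro _ ⟨f, hf, rfl⟩
    rw [ex_one_single, cut, if_neg (hf ▸ hc)]
    rfl
  exact LinearMap.eqOn_span h1 hx

lemma Hm_pow (π : F →* G) {g : G} {x : MonoidAlgebra ℤ F} (hx : x ∈ Hm ℤ π g) (m : ℕ) :
    x ^ m ∈ Hm ℤ π (g ^ m) := by
  induction m with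
  | zero =>
    rw [pow_zero, pow_zero]
    exact Submodule.subset_span ⟨1, map_one π, rfl⟩
  | succ m ih => rw [pow_succ, pow_succ]; exact Hm_mul π ih hx

lemma Idl_mul_mem (π : F →* G) {x : MonoidAlgebra ℤ F} (y : MonoidAlgebra ℤ F)
    (hx : x ∈ Idl ℤ π) : x * y ∈ Idl ℤ π := by
  unfold Idl at hx
  induction hx using Submodule.span_induction with
  | zero => rw [zero_mul]; exact Submodule.zero_mem _
  | add y z _ _ h h' => rw [add_mul]; exact Submodule.add_mem _ h h'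
  | smul a y _ h => rw [smul_mul_assoc]; exact Submodule.smul_mem _ _ h
  | mem x hx =>
    obtain ⟨a, b, hab, rfl⟩ := hx
    induction y using MonoidAlgebra.induction_linear with
    | zero => rw [mul_zero]; exact Submodule.zero_mem _
    | add y z h h' => rw [mul_add]; exact Submodule.add_mem _ h h'
    | single f r =>
      rw [sub_mul, MonoidAlgebra.single_mul_single, MonoidAlgebra.single_mul_single, one_mul,
        single_eq_smul (a * f), single_eq_smul (b * f), ← smul_sub]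
      exact Submodule.smul_mem _ _ (Submodule.subset_span
        ⟨a * f, b * f, by rw [map_mul, map_mul, hab], rfl⟩)

lemma Idl_pow_mul_mem (π : F →* G) (n : ℕ) {x : MonoidAlgebra ℤ F} (y : MonoidAlgebra ℤ F)
    (hx : x ∈ (Idl ℤ π) ^ (n + 1)) : x * y ∈ (Idl ℤ π) ^ (n + 1) := by
  rw [pow_succ] at hx ⊢
  induction hx using Submodule.mul_induction_on' with
  | mem_mul_mem u hu v hv =>
    rw [mul_assoc]
    exact Submodule.mul_mem_mul hu (Idl_mul_mem π y hv)
  | add u _ v _ h h' => rw [add_mul]; exact Submodule.add_mem _ h h'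

lemma Idl_pow_anti (π : F →* G) {m n : ℕ} (h : n + 1 ≤ m) {x : MonoidAlgebra ℤ F}
    (hx : x ∈ (Idl ℤ π) ^ m) : x ∈ (Idl ℤ π) ^ (n + 1) := by
  obtain ⟨c, rfl⟩ := Nat.exists_eq_add_of_le' h
  rw [pow_add] at hx
  induction hx using Submodule.mul_induction_on' with
  | mem_mul_mem u hu v hv => exact mul_mem_Idl_pow π n u hv
  | add u _ v _ h h' => exact Submodule.add_mem _ h h'

lemma span_comm (T : MonoidAlgebra ℤ F →ₗ[ℤ] M) (S1 S2 : Set (MonoidAlgebra ℤ F))
    (hT : ∀ x ∈ S1, ∀ y ∈ S2, T (x * y) = T (y * x)) {x y : MonoidAlgebra ℤ F}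
    (hx : x ∈ Submodule.span ℤ S1) (hy : y ∈ Submodule.span ℤ S2) : T (x * y) = T (y * x) := by
  induction hx using Submodule.span_induction with
  | zero => simp
  | add a b _ _ h h' => simp only [add_mul, mul_add, map_add, h, h']
  | smul a z _ h => rw [smul_mul_assoc, mul_smul_comm, map_smul, map_smul, h]
  | mem x hx =>
    induction hy using Submodule.span_induction with
    | zero => simp
    | add a b _ _ h h' => simp only [add_mul, mul_add, map_add, h, h']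
    | smul a z _ h => rw [smul_mul_assoc, mul_smul_comm, map_smul, map_smul, h]
    | mem y hy => exact hT x hx y hy

lemma cut_span_comm (π : F →* G) (c : G → Prop) (hc : ∀ x y, c (x * y) ↔ c (y * x)) (Φ : F → M)
    (S1 S2 : Set (MonoidAlgebra ℤ F)) (h1 : ∀ x ∈ S1, ∃ h, x ∈ Hm ℤ π h)
    (h2 : ∀ x ∈ S2, ∃ h, x ∈ Hm ℤ π h)
    (hT : ∀ x ∈ S1, ∀ y ∈ S2, ex Φ (x * y) = ex Φ (y * x)) {x y : MonoidAlgebra ℤ F}
    (hx : x ∈ Submodule.span ℤ S1) (hy : y ∈ Submodule.span ℤ S2) :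
    ex (cut π c Φ) (x * y) = ex (cut π c Φ) (y * x) := by
  refine span_comm (ex (cut π c Φ)) S1 S2 ?_ hx hy
  intro x hx y hy
  obtain ⟨g, hg⟩ := h1 x hx
  obtain ⟨h, hh⟩ := h2 y hy
  by_cases hgh : c (g * h)
  · rw [cut_pos π c Φ hgh (Hm_mul π hg hh), cut_pos π c Φ ((hc _ _).mp hgh) (Hm_mul π hh hg)]
    exact hT x hx y hy
  · rw [cut_neg π c Φ hgh (Hm_mul π hg hh),
      cut_neg π c Φ (fun h' => hgh ((hc _ _).mp h')) (Hm_mul π hh hg)]

/-- the whole algebra is spanned by words -/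
lemma mem_span_words (x : MonoidAlgebra ℤ F) :
    x ∈ Submodule.span ℤ {x : MonoidAlgebra ℤ F | ∃ f, MonoidAlgebra.single f 1 = x} := by
  induction x using MonoidAlgebra.induction_linear with
  | zero => exact Submodule.zero_mem _
  | add x y hx hy => exact Submodule.add_mem _ hx hy
  | single f r =>
    rw [single_eq_smul]
    exact Submodule.smul_mem _ _ (Submodule.subset_span ⟨f, rfl⟩)

/-- cutting preserves the trace property on `A × I ^ m` -/
lemma cut_Ha (π : F →* G) (c : G → Prop) (hc : ∀ x y, c (x * y) ↔ c (y * x)) (Φ : F → M) (m : ℕ)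
    (hT : ∀ x, ∀ a ∈ (Idl ℤ π) ^ m, ex Φ (x * a) = ex Φ (a * x)) (x : MonoidAlgebra ℤ F)
    {a : MonoidAlgebra ℤ F} (ha : a ∈ (Idl ℤ π) ^ m) :
    ex (cut π c Φ) (x * a) = ex (cut π c Φ) (a * x) := by
  have ha' := ha
  unfold Idl at ha
  rw [Submodule.span_pow] at ha
  refine cut_span_comm π c hc Φ _ _ ?_ (fun x hx => Dif_pow_Hm π m hx) ?_ (mem_span_words x) ha
  · rintro _ ⟨f, rfl⟩
    exact ⟨π f, Submodule.subset_span ⟨f, rfl, rfl⟩⟩
  · intro x _ y hy
    refine hT x y ?_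
    unfold Idl
    rw [Submodule.span_pow]
    exact Submodule.subset_span hy

/-- cutting preserves the trace property on `I × I ^ m` -/
lemma cut_Hb (π : F →* G) (c : G → Prop) (hc : ∀ x y, c (x * y) ↔ c (y * x)) (Φ : F → M) (m : ℕ)
    (hT : ∀ x ∈ Idl ℤ π, ∀ a ∈ (Idl ℤ π) ^ m, ex Φ (x * a) = ex Φ (a * x))
    {x : MonoidAlgebra ℤ F} (hx : x ∈ Idl ℤ π)
    {a : MonoidAlgebra ℤ F} (ha : a ∈ (Idl ℤ π) ^ m) :
    ex (cut π c Φ) (x * a) = ex (cut π c Φ) (a * x) := by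
  unfold Idl at ha hx
  rw [Submodule.span_pow] at ha
  refine cut_span_comm π c hc Φ _ _ (fun x hx => Dif_Hm π hx) (fun x hx => Dif_pow_Hm π m hx) ?_
    hx ha
  intro x hx y hy
  refine hT x (Submodule.subset_span hx) y ?_
  unfold Idl
  rw [Submodule.span_pow]
  exact Submodule.subset_span hy

/-- two functions additive on a span and equal on generators are equal on the span -/
lemma eq_on_span {A : Type*} [AddCommGroup A] (S : Set A) (g1 g2 : A → M)
    (h1 : ∀ x ∈ Submodule.span ℤ S, ∀ y ∈ Submodule.span ℤ S, g1 (x + y) = g1 x + g1 y)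
    (h2 : ∀ x ∈ Submodule.span ℤ S, ∀ y ∈ Submodule.span ℤ S, g2 (x + y) = g2 x + g2 y)
    (h : ∀ x ∈ S, g1 x = g2 x) {x : A} (hx : x ∈ Submodule.span ℤ S) : g1 x = g2 x := by
  let E1 : Submodule.span ℤ S →+ M := AddMonoidHom.mk' (fun z => g1 z.1)
    (fun a b => h1 a.1 a.2 b.1 b.2)
  let E2 : Submodule.span ℤ S →+ M := AddMonoidHom.mk' (fun z => g2 z.1)
    (fun a b => h2 a.1 a.2 b.1 b.2)
  have key : ∀ x (hx : x ∈ Submodule.span ℤ S), E1 ⟨x, hx⟩ = E2 ⟨x, hx⟩ := by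
    intro x hx
    induction hx using Submodule.span_induction with
    | mem x hx => exact h x hx
    | zero =>
      have e : (⟨0, Submodule.zero_mem _⟩ : Submodule.span ℤ S) = 0 := rfl
      rw [e, map_zero, map_zero]
    | add a b ha hb h h' =>
      have e : (⟨a + b, Submodule.add_mem _ ha hb⟩ : Submodule.span ℤ S) = ⟨a, ha⟩ + ⟨b, hb⟩ := rfl
      rw [e, map_add, map_add, h, h']
    | smul r a ha h =>
      have e : (⟨r • a, Submodule.smul_mem _ r ha⟩ : Submodule.span ℤ S) = r • ⟨a, ha⟩ := rfl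
      rw [e, map_zsmul, map_zsmul, h]
  exact key x hx

/-- the trace composed with a linear map -/
noncomputable def Tm (T : MonoidAlgebra ℤ F →ₗ[ℤ] M) : Matrix d d (MonoidAlgebra ℤ F) →+ M :=
  T.toAddMonoidHom.comp (Matrix.traceAddMonoidHom d (MonoidAlgebra ℤ F))

lemma Tm_apply (T : MonoidAlgebra ℤ F →ₗ[ℤ] M) (X : Matrix d d (MonoidAlgebra ℤ F)) :
    Tm T X = T X.trace := rfl

lemma Tm_comm (T : MonoidAlgebra ℤ F →ₗ[ℤ] M) (J : Submodule ℤ (MonoidAlgebra ℤ F))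
    (hT : ∀ x, ∀ a ∈ J, T (x * a) = T (a * x)) (X Y : Matrix d d (MonoidAlgebra ℤ F))
    (hY : ∀ i j, Y i j ∈ J) : Tm T (X * Y) = Tm T (Y * X) := by
  simp only [Tm_apply, Matrix.trace, Matrix.diag_apply, Matrix.mul_apply, map_sum]
  rw [Finset.sum_comm]
  exact Finset.sum_congr rfl fun i _ => Finset.sum_congr rfl fun j _ => hT _ _ (hY _ _)

lemma mat_mul_left (J : Submodule ℤ (MonoidAlgebra ℤ F)) (hl : ∀ x, ∀ a ∈ J, x * a ∈ J)
    (X Y : Matrix d d (MonoidAlgebra ℤ F)) (hY : ∀ i j, Y i j ∈ J) (i j : d) :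
    (X * Y) i j ∈ J := by
  rw [Matrix.mul_apply]
  exact Submodule.sum_mem _ fun l _ => hl _ _ (hY _ _)

lemma mat_mul_right (J : Submodule ℤ (MonoidAlgebra ℤ F)) (hr : ∀ x, ∀ a ∈ J, a * x ∈ J)
    (X Y : Matrix d d (MonoidAlgebra ℤ F)) (hX : ∀ i j, X i j ∈ J) (i j : d) :
    (X * Y) i j ∈ J := by
  rw [Matrix.mul_apply]
  exact Submodule.sum_mem _ fun l _ => hr _ _ (hX _ _)

lemma mat_pow_mem (J : Submodule ℤ (MonoidAlgebra ℤ F)) (hl : ∀ x, ∀ a ∈ J, x * a ∈ J)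
    (X : Matrix d d (MonoidAlgebra ℤ F)) (hX : ∀ i j, X i j ∈ J) (m : ℕ) (i j : d) :
    (X ^ (m + 1)) i j ∈ J := by
  rw [pow_succ]
  exact mat_mul_left J hl _ _ hX i j

/-- the alternation -/
lemma alt (T : MonoidAlgebra ℤ F →ₗ[ℤ] M) (J : Submodule ℤ (MonoidAlgebra ℤ F))
    (hl : ∀ x, ∀ a ∈ J, x * a ∈ J)
    (hT : ∀ x, ∀ a ∈ J, T (x * a) = T (a * x)) (V U : Matrix d d (MonoidAlgebra ℤ F))
    (hα : ∀ i j, (V * U - 1) i j ∈ J) (q : ℕ) :
    Tm T ((V * U - 1) ^ (q + 1)) - Tm T ((U * V - 1) ^ (q + 1)) =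
      ((-1 : ℤ) ^ q) • (Tm T (V * U) - Tm T (U * V)) := by
  induction q with
  | zero =>
    rw [zero_add, pow_one, pow_one, map_sub, map_sub, pow_zero, one_smul]
    abel
  | succ q ih =>
    have hUα : ∀ m, U * (V * U - 1) ^ m = (U * V - 1) ^ m * U := by
      intro m
      induction m with
      | zero => simp
      | succ m ihm =>
        rw [pow_succ', ← mul_assoc, show U * (V * U - 1) = (U * V - 1) * U by noncomm_ring,
          mul_assoc, ihm, ← mul_assoc, ← pow_succ']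
    have e1 : (V * U - 1) ^ (q + 1 + 1) =
        V * (U * (V * U - 1) ^ (q + 1)) - (V * U - 1) ^ (q + 1) := by
      rw [pow_succ' (V * U - 1) (q + 1)]
      noncomm_ring
    have e2 : (U * (V * U - 1) ^ (q + 1)) * V =
        (U * V - 1) ^ (q + 1 + 1) + (U * V - 1) ^ (q + 1) := by
      rw [hUα, pow_succ (U * V - 1) (q + 1)]
      noncomm_ring
    have e3 := Tm_comm T J hT V (U * (V * U - 1) ^ (q + 1))
      (mat_mul_left J hl _ _ (mat_pow_mem J hl _ hα q))
    rw [e1, map_sub, e3, e2, map_add, pow_succ (-1 : ℤ) q, mul_neg_one, neg_smul, ← ih]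
    abel

end Pool.Agent.H23R2.Odd
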