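import Pool.Agent.H23R2.Odd.Alg

/-!
# Traces of `p`-th powers of matrices over the ideal
-/

set_option autoImplicit false
set_option linter.unusedSectionVars false
set_option linter.unusedSimpArgs false

namespace Pool.Agent.H23R2.Odd

open Finset Pool.Agent.H23R2 Pool.Agent.H23R2.Cyc Pool.Agent.H23R2.Ch
open scoped Pointwise

variable {F : Type*} [Monoid F] {M : Type*} [AddCommGroup M]
  {d : Type*} [Fintype d] [DecidableEq d] {G : Type*} [Group G]

/-- On matrices over the span of `D`, the trace of `p ^ k`-th powers is computed on `D`. -/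
theorem mat_ppow (T g : MonoidAlgebra ℤ F →ₗ[ℤ] M) {p : ℕ} [hp : Fact p.Prime] (k : ℕ)
    (hk : 1 ≤ k)
    (hM : ∀ x : M, p • x = 0) (D : Set (MonoidAlgebra ℤ F))
    (hT : ∀ x, ∀ a ∈ Submodule.span ℤ D, T (x * a) = T (a * x))
    (hD : ∀ z ∈ D, T (z ^ p ^ k) = g z) (X : Matrix d d (MonoidAlgebra ℤ F))
    (hX : ∀ i j, X i j ∈ Submodule.span ℤ D) : Tm T (X ^ p ^ k) = Tm g X := by
  have hn2 : 2 ≤ p ^ k := by
    calc 2 ≤ p := hp.out.two_le
      _ = p ^ 1 := (pow_one p).symm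
      _ ≤ p ^ k := Nat.pow_le_pow_right hp.out.pos hk
  set K : Set (Matrix d d (MonoidAlgebra ℤ F)) := {X | ∀ i j, X i j ∈ Submodule.span ℤ D} with hK
  have hadd : ∀ X ∈ K, ∀ Y ∈ K, Tm T ((X + Y) ^ p ^ k) = Tm T (X ^ p ^ k) + Tm T (Y ^ p ^ k) := by
    intro X hX Y hY
    exact add_ppow (Tm T) k hM K (fun _ => Set.univ) (fun _ _ => trivial)
      (fun _ _ _ _ _ _ => trivial) hk
      (fun x hx y _ => (Tm_comm T _ hT y x hx).symm) X Y hX hY
  have hKadd : ∀ X ∈ K, ∀ Y ∈ K, X + Y ∈ K := fun X hX Y hY i j =>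
    Submodule.add_mem _ (hX i j) (hY i j)
  have hKsingle : ∀ i j, ∀ z ∈ Submodule.span ℤ D, Matrix.single i j z ∈ K := by
    intro i j z hz i' j'
    rw [Matrix.single_apply]
    split_ifs
    · exact hz
    · exact Submodule.zero_mem _
  have hsingle : ∀ i j, ∀ z ∈ Submodule.span ℤ D,
      Tm T ((Matrix.single i j z : Matrix d d _) ^ p ^ k) = Tm g (Matrix.single i j z) := by
    intro i j z hz
    refine eq_on_span D (fun z => Tm T ((Matrix.single i j z : Matrix d d _) ^ p ^ k))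
      (fun z => Tm g (Matrix.single i j z)) ?_ ?_ ?_ hz
    · intro x hx y hy
      show Tm T ((Matrix.single i j (x + y) : Matrix d d _) ^ p ^ k) = _
      rw [Matrix.single_add]
      exact hadd _ (hKsingle i j x hx) _ (hKsingle i j y hy)
    · intro x _ y _
      show Tm g (Matrix.single i j (x + y)) = _
      rw [Matrix.single_add, map_add]
    · intro z hz
      by_cases hij : i = j
      · subst hij
        have h1 : ∀ m : ℕ, (Matrix.single i i z : Matrix d d _) ^ (m + 1) =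
            Matrix.single i i (z ^ (m + 1)) := by
          intro m
          induction m with
          | zero => simp
          | succ m ih => rw [pow_succ, ih, Matrix.single_mul_single_same, ← pow_succ]
        obtain ⟨q, hq⟩ : ∃ q, p ^ k = q + 1 := ⟨p ^ k - 1, by omega⟩
        show Tm T ((Matrix.single i i z : Matrix d d _) ^ p ^ k) = Tm g (Matrix.single i i z)
        rw [Tm_apply, Tm_apply, Matrix.trace_single_eq_same, hq, h1,
          Matrix.trace_single_eq_same, ← hq]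
        exact hD z hz
      · obtain ⟨q, hq⟩ : ∃ q, p ^ k = q + 2 := ⟨p ^ k - 2, by omega⟩
        show Tm T ((Matrix.single i j z : Matrix d d _) ^ p ^ k) = Tm g (Matrix.single i j z)
        rw [Tm_apply, Tm_apply, Matrix.trace_single_eq_of_ne _ _ _ hij, hq, pow_succ, pow_succ,
          mul_assoc, Matrix.single_mul_single_of_ne _ _ _ _ (Ne.symm hij)]
        simp
  have hP : ∀ X ∈ K, (X ∈ K ∧ Tm T (X ^ p ^ k) = Tm g X) := by
    intro X hX
    have hzero : (0 : Matrix d d (MonoidAlgebra ℤ F)) ∈ K ∧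
        Tm T ((0 : Matrix d d (MonoidAlgebra ℤ F)) ^ p ^ k) =
          Tm g (0 : Matrix d d (MonoidAlgebra ℤ F)) := by
      refine ⟨fun i j => Submodule.zero_mem _, ?_⟩
      rw [zero_pow (by omega)]
      simp
    have hstep : ∀ X Y : Matrix d d (MonoidAlgebra ℤ F),
        (X ∈ K ∧ Tm T (X ^ p ^ k) = Tm g X) → (Y ∈ K ∧ Tm T (Y ^ p ^ k) = Tm g Y) →
        (X + Y ∈ K ∧ Tm T ((X + Y) ^ p ^ k) = Tm g (X + Y)) := by
      intro X Y hX hY
      exact ⟨hKadd _ hX.1 _ hY.1, by rw [hadd _ hX.1 _ hY.1, hX.2, hY.2, map_add]⟩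
    rw [Matrix.matrix_eq_sum_single X]
    refine Finset.sum_induction _ (fun X => X ∈ K ∧ Tm T (X ^ p ^ k) = Tm g X) hstep hzero ?_
    intro i _
    refine Finset.sum_induction _ (fun X => X ∈ K ∧ Tm T (X ^ p ^ k) = Tm g X) hstep hzero ?_
    intro j _
    exact ⟨hKsingle i j _ (hX i j), hsingle i j _ (hX i j)⟩
  exact (hP X hX).2

lemma aug_dec (π : F →* G) {x : MonoidAlgebra ℤ F} (hx : x ∈ Hm ℤ π 1) :
    ∃ m : ℤ, x - m • (1 : MonoidAlgebra ℤ F) ∈ Idl ℤ π := by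
  unfold Hm at hx
  induction hx using Submodule.span_induction with
  | zero => exact ⟨0, by simp⟩
  | add x y _ _ h h' =>
    obtain ⟨m, hm⟩ := h
    obtain ⟨m', hm'⟩ := h'
    refine ⟨m + m', ?_⟩
    have := Submodule.add_mem _ hm hm'
    have e : x + y - (m + m') • (1 : MonoidAlgebra ℤ F) = (x - m • 1) + (y - m' • 1) := by
      rw [add_smul]; abel
    rw [e]
    exact this
  | smul a x _ h =>
    obtain ⟨m, hm⟩ := h
    refine ⟨a * m, ?_⟩
    rw [mul_smul, ← smul_sub]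
    exact Submodule.smul_mem _ _ hm
  | mem x hx =>
    obtain ⟨f, hf, rfl⟩ := hx
    refine ⟨1, Submodule.subset_span ⟨f, 1, by rw [hf, map_one], ?_⟩⟩
    rw [one_smul, ← MonoidAlgebra.one_def]

lemma int_pow_smul {p : ℕ} [hp : Fact p.Prime] (hM : ∀ x : M, p • x = 0) (m : ℤ) (x : M) :
    (m ^ p) • x = m • x := by
  have h : (p : ℤ) ∣ m ^ p - m := by
    rw [← ZMod.intCast_zmod_eq_zero_iff_dvd]
    push_cast
    rw [ZMod.pow_card, sub_self]
  obtain ⟨c, hc⟩ := h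
  have h2 : m ^ p = m + c * p := by linarith
  rw [h2, add_smul, mul_smul, natCast_zsmul, hM, smul_zero, add_zero]

lemma T_smul_p {p : ℕ} (hM : ∀ x : M, p • x = 0) (T : MonoidAlgebra ℤ F →ₗ[ℤ] M)
    (r : MonoidAlgebra ℤ F) : T ((p : MonoidAlgebra ℤ F) * r) = 0 := by
  rw [← nsmul_eq_mul, map_nsmul, hM]

/-- additivity of the `p`-th power on the part of degree one -/
lemma hm1_pow {p : ℕ} [hp : Fact p.Prime] (hM : ∀ x : M, p • x = 0) (π : F →* G)
    (T : MonoidAlgebra ℤ F →ₗ[ℤ] M) (x x' : MonoidAlgebra ℤ F) (m : ℤ)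
    (hx : x - m • 1 = x') : T (x ^ p) = T (x' ^ p) + m • T 1 := by
  have h1 : x = x' + m • 1 := by rw [← hx]; abel
  have hc : Commute x' (m • (1 : MonoidAlgebra ℤ F)) := (Commute.one_right x').smul_right m
  obtain ⟨r, hr⟩ := hc.exists_add_pow_prime_eq hp.out
  rw [h1, hr, map_add, map_add, mul_assoc, mul_assoc, T_smul_p hM, add_zero, smul_pow, one_pow,
    map_zsmul, int_pow_smul hM]

lemma hm1_add {p : ℕ} [hp : Fact p.Prime] (hM : ∀ x : M, p • x = 0) (π : F →* G)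
    (T : MonoidAlgebra ℤ F →ₗ[ℤ] M)
    (hb : ∀ x ∈ Idl ℤ π, ∀ y ∈ (Idl ℤ π) ^ (p - 1), T (x * y) = T (y * x))
    {x y : MonoidAlgebra ℤ F} (hx : x ∈ Hm ℤ π 1) (hy : y ∈ Hm ℤ π 1) :
    T ((x + y) ^ p) = T (x ^ p) + T (y ^ p) := by
  obtain ⟨m, hm⟩ := aug_dec π hx
  obtain ⟨m', hm'⟩ := aug_dec π hy
  have e : (x + y) - (m + m') • (1 : MonoidAlgebra ℤ F) = (x - m • 1) + (y - m' • 1) := by
    rw [add_smul]; abel
  rw [hm1_pow hM π T x _ m rfl, hm1_pow hM π T y _ m' rfl, hm1_pow hM π T (x + y) _ (m + m') e]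
  have h := add_ppow T.toAddMonoidHom 1 hM (Idl ℤ π : Set (MonoidAlgebra ℤ F))
    (fun m => ((Idl ℤ π) ^ m : Submodule ℤ (MonoidAlgebra ℤ F)))
    (fun x hx => by rw [pow_one]; exact hx)
    (fun m _ x hx y hy => by rw [pow_succ]; exact Submodule.mul_mem_mul hx hy) le_rfl
    (fun x hx y hy => hb x hx y (by rwa [pow_one] at hy)) _ _ hm hm'
  rw [pow_one] at h
  have h' : T ((x - m • 1 + (y - m' • 1)) ^ p) =
      T ((x - m • 1) ^ p) + T ((y - m' • 1) ^ p) := h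
  rw [h', add_smul]
  abel

/-- the `p`-th power function on words of degree one -/
noncomputable def pw (π : F →* G) (τ : F → M) (p : ℕ) : F → M :=
  fun f => cut π (fun h => h = 1) τ (f ^ p)

lemma one_symm (x y : G) : (x * y = 1) ↔ (y * x = 1) := by
  rw [mul_eq_one_iff_eq_inv, mul_eq_one_iff_inv_eq]
  exact eq_comm

lemma id_pow {p : ℕ} [hp : Fact p.Prime] (hM : ∀ x : M, p • x = 0) (π : F →* G)
    (hG : ∀ g : G, g ^ p = 1 → g = 1) (τ : F → M)
    (hb : ∀ x ∈ Idl ℤ π, ∀ y ∈ (Idl ℤ π) ^ (p - 1), ex τ (x * y) = ex τ (y * x))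
    {h : G} {z : MonoidAlgebra ℤ F} (hz : z ∈ Hm ℤ π h) :
    ex (cut π (fun h => h = 1) τ) (z ^ p) = ex (pw π τ p) z := by
  by_cases hh : h = 1
  · subst hh
    have hadd := fun {x y : MonoidAlgebra ℤ F} (hx : x ∈ Hm ℤ π 1) (hy : y ∈ Hm ℤ π 1) =>
      hm1_add hM π (ex (cut π (fun h => h = 1) τ))
        (fun x hx y hy => cut_Hb π (fun h => h = 1) one_symm τ (p - 1) hb hx hy) hx hy
    refine eq_on_span _ (fun z => ex (cut π (fun h => h = 1) τ) (z ^ p))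
      (fun z => ex (pw π τ p) z) ?_ ?_ ?_ hz
    · intro x hx y hy
      exact hadd hx hy
    · intro x _ y _
      exact map_add _ _ _
    · rintro _ ⟨f, hf, rfl⟩
      show ex _ ((MonoidAlgebra.single f (1 : ℤ)) ^ p) = ex _ _
      rw [MonoidAlgebra.single_pow, one_pow, ex_one_single, ex_one_single, pw]
  · rw [cut_neg π _ τ (h := h ^ p) (fun h' => hh (hG h h')) (Hm_pow π hz p)]
    have h1 : Set.EqOn (ex (k := ℤ) (pw π τ p)) (0 : MonoidAlgebra ℤ F →ₗ[ℤ] M)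
        {x | ∃ f, π f = h ∧ MonoidAlgebra.single f 1 = x} := by
      rintro _ ⟨f, hf, rfl⟩
      rw [ex_one_single, pw, cut, map_pow, hf, if_neg (fun h' => hh (hG h h'))]
      rfl
    exact (LinearMap.eqOn_span h1 hz).symm

/-- **Identity component.** -/
theorem part_one {p : ℕ} [hp : Fact p.Prime] (hM : ∀ x : M, p • x = 0) (π : F →* G)
    (hG : ∀ g : G, g ^ p = 1 → g = 1) (τ : F → M) (n : ℕ)
    (ha : ∀ x, ∀ a ∈ (Idl ℤ π) ^ (n + 1), ex τ (x * a) = ex τ (a * x))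
    (hb : ∀ x ∈ Idl ℤ π, ∀ y ∈ (Idl ℤ π) ^ (p - 1), ex τ (x * y) = ex τ (y * x))
    (V U : Matrix d d (MonoidAlgebra ℤ F)) (hα : ∀ i j, (V * U - 1) i j ∈ (Idl ℤ π) ^ (n + 1))
    (hβ : ∀ i j, (U * V - 1) i j ∈ (Idl ℤ π) ^ (n + 1)) :
    Tm (ex (cut π (fun h => h = 1) τ)) (V * U) - Tm (ex (cut π (fun h => h = 1) τ)) (U * V) =
      ((-1 : ℤ) ^ (p - 1)) • (Tm (ex (pw π τ p)) (V * U) - Tm (ex (pw π τ p)) (U * V)) := by
  have ha' := fun x a (h : a ∈ (Idl ℤ π) ^ (n + 1)) =>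
    cut_Ha π (fun h => h = 1) one_symm τ (n + 1) ha x h
  have hspan : (Idl ℤ π) ^ (n + 1) = Submodule.span ℤ ((Dif ℤ π) ^ (n + 1)) := by
    unfold Idl
    rw [Submodule.span_pow]
  have h1 := alt (ex (cut π (fun h => h = 1) τ)) ((Idl ℤ π) ^ (n + 1))
    (fun x a h => mul_mem_Idl_pow π n x h) ha' V U hα (p - 1)
  rw [Nat.sub_add_cancel hp.out.one_le] at h1
  have h2 : ∀ X : Matrix d d (MonoidAlgebra ℤ F), (∀ i j, X i j ∈ (Idl ℤ π) ^ (n + 1)) →
      Tm (ex (cut π (fun h => h = 1) τ)) (X ^ p) = Tm (ex (pw π τ p)) X := by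
    intro X hX
    have h3 := mat_ppow (ex (cut π (fun h => h = 1) τ)) (ex (pw π τ p)) 1 le_rfl hM
      ((Dif ℤ π) ^ (n + 1)) (by rw [← hspan]; exact ha') (by
        intro z hz
        rw [pow_one]
        obtain ⟨h, hh⟩ := Dif_pow_Hm π (n + 1) hz
        exact id_pow hM π hG τ hb hh) X (by rw [← hspan]; exact hX)
    rwa [pow_one] at h3
  rw [h2 _ hα, h2 _ hβ] at h1
  have h4 : ((-1 : ℤ) ^ (p - 1)) * ((-1 : ℤ) ^ (p - 1)) = 1 := by
    rw [← mul_pow]; simp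
  have h5 : Tm (ex (pw π τ p)) (V * U) - Tm (ex (pw π τ p)) (U * V) =
      Tm (ex (pw π τ p)) (V * U - 1) - Tm (ex (pw π τ p)) (U * V - 1) := by
    rw [map_sub, map_sub]; abel
  rw [h5, h1, smul_smul, h4, one_smul]

/-- **Other components.** -/
theorem part_rest {p : ℕ} [hp : Fact p.Prime] (hM : ∀ x : M, p • x = 0) (π : F →* G)
    (τ : F → M) (n k : ℕ) (hk : 1 ≤ k) (c : G → Prop) (hc : ∀ x y, c (x * y) ↔ c (y * x))
    (hck : ∀ h, ¬ c (h ^ p ^ k))
    (ha : ∀ x, ∀ a ∈ (Idl ℤ π) ^ (n + 1), ex τ (x * a) = ex τ (a * x))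
    (V U : Matrix d d (MonoidAlgebra ℤ F)) (hα : ∀ i j, (V * U - 1) i j ∈ (Idl ℤ π) ^ (n + 1))
    (hβ : ∀ i j, (U * V - 1) i j ∈ (Idl ℤ π) ^ (n + 1)) :
    Tm (ex (cut π c τ)) (V * U) - Tm (ex (cut π c τ)) (U * V) = 0 := by
  have ha' := fun x a (h : a ∈ (Idl ℤ π) ^ (n + 1)) => cut_Ha π c hc τ (n + 1) ha x h
  have hspan : (Idl ℤ π) ^ (n + 1) = Submodule.span ℤ ((Dif ℤ π) ^ (n + 1)) := by
    unfold Idl
    rw [Submodule.span_pow]
  have hpk : 1 ≤ p ^ k := Nat.one_le_pow _ _ hp.out.pos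
  have h1 := alt (ex (cut π c τ)) ((Idl ℤ π) ^ (n + 1))
    (fun x a h => mul_mem_Idl_pow π n x h) ha' V U hα (p ^ k - 1)
  rw [Nat.sub_add_cancel hpk] at h1
  have h2 : ∀ X : Matrix d d (MonoidAlgebra ℤ F), (∀ i j, X i j ∈ (Idl ℤ π) ^ (n + 1)) →
      Tm (ex (cut π c τ)) (X ^ p ^ k) = 0 := by
    intro X hX
    have h3 := mat_ppow (ex (cut π c τ)) 0 k hk hM
      ((Dif ℤ π) ^ (n + 1)) (by rw [← hspan]; exact ha') (by
        intro z hz
        obtain ⟨h, hh⟩ := Dif_pow_Hm π (n + 1) hz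
        rw [cut_neg π c τ (hck h) (Hm_pow π hh _)]
        rfl) X (by rw [← hspan]; exact hX)
    rw [h3, Tm_apply]
    rfl
  rw [h2 _ hα, h2 _ hβ, sub_zero] at h1
  have h4 : ((-1 : ℤ) ^ (p ^ k - 1)) * ((-1 : ℤ) ^ (p ^ k - 1)) = 1 := by
    rw [← mul_pow]; simp
  have h5 := congrArg (fun x => ((-1 : ℤ) ^ (p ^ k - 1)) • x) h1
  simp only [smul_smul, h4, one_smul, smul_zero] at h5
  exact h5.symm

end Pool.Agent.H23R2.Odd
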