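import Pool.Agent.H23R2.Odd.AlgA

/-!
# The character attached to a trace modulo `p`
-/

set_option autoImplicit false
set_option linter.unusedSectionVars false
set_option linter.unusedSimpArgs false

namespace Pool.Agent.H23R2.Odd

open Finset Pool.Agent.H23R2 Pool.Agent.H23R2.Cyc Pool.Agent.H23R2.Ch
open scoped Pointwise

section Ring

variable {A M : Type*} [Ring A] [AddCommGroup M]

/-- the commutator functional -/
def ps (T : A →+ M) (x y : A) : M := T (x * y) - T (y * x)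

/-- inverse modulo `P` -/
def Inv (P : AddSubgroup A) (x y : A) : Prop := x * y - 1 ∈ P ∧ y * x - 1 ∈ P

/-- a two-sided ideal on which `T` is a trace -/
structure Tr (T : A →+ M) (P : AddSubgroup A) : Prop where
  l : ∀ x, ∀ a ∈ P, x * a ∈ P
  r : ∀ x, ∀ a ∈ P, a * x ∈ P
  t : ∀ x, ∀ a ∈ P, T (x * a) = T (a * x)

variable {T : A →+ M} {P : AddSubgroup A}

lemma ps_left (h : Tr T P) {a : A} (ha : a ∈ P) (y : A) : ps T a y = 0 := by
  unfold ps
  rw [h.t y a ha, sub_self]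

lemma ps_right (h : Tr T P) {a : A} (ha : a ∈ P) (x : A) : ps T x a = 0 := by
  unfold ps
  rw [h.t x a ha, sub_self]

lemma ps_sub_left (x x' y : A) : ps T (x - x') y = ps T x y - ps T x' y := by
  unfold ps
  rw [sub_mul, mul_sub, map_sub, map_sub]
  abel

lemma ps_sub_right (x y y' : A) : ps T x (y - y') = ps T x y - ps T x y' := by
  unfold ps
  rw [sub_mul, mul_sub, map_sub, map_sub]
  abel

lemma inv_unique (h : Tr T P) {x x' y y' : A} (hx : x - x' ∈ P) (hy : Inv P x y)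
    (hy' : Inv P x' y') : y - y' ∈ P := by
  have h1 : y - y' = y' * (x * y - 1) - (y' * x' - 1) * y - y' * (x - x') * y := by
    noncomm_ring
  rw [h1]
  exact P.sub_mem (P.sub_mem (h.l _ _ hy.1) (h.r _ _ hy'.2)) (h.r _ _ (h.l _ _ hx))

lemma ps_congr (h : Tr T P) {x x' y y' : A} (hx : x - x' ∈ P) (hy : Inv P x y)
    (hy' : Inv P x' y') : ps T x y = ps T x' y' := by
  have h1 := ps_left h hx y
  have h2 := ps_right h (inv_unique h hx hy hy') x'
  rw [ps_sub_left] at h1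
  rw [ps_sub_right] at h2
  rw [sub_eq_zero.mp h1, sub_eq_zero.mp h2]

lemma Inv.mul (h : Tr T P) {x1 x2 y1 y2 : A} (h1 : Inv P x1 y1) (h2 : Inv P x2 y2) :
    Inv P (x1 * x2) (y2 * y1) := by
  constructor
  · have e : x1 * x2 * (y2 * y1) - 1 = x1 * (x2 * y2 - 1) * y1 + (x1 * y1 - 1) := by noncomm_ring
    rw [e]
    exact P.add_mem (h.r _ _ (h.l _ _ h2.1)) h1.1
  · have e : y2 * y1 * (x1 * x2) - 1 = y2 * (y1 * x1 - 1) * x2 + (y2 * x2 - 1) := by noncomm_ring
    rw [e]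
    exact P.add_mem (h.r _ _ (h.l _ _ h1.2)) h2.2

lemma Inv.symm {x y : A} (h : Inv P x y) : Inv P y x := ⟨h.2, h.1⟩

lemma Inv.congr (h : Tr T P) {x x' y : A} (hx : x' - x ∈ P) (hy : Inv P x y) : Inv P x' y := by
  constructor
  · have e : x' * y - 1 = (x' - x) * y + (x * y - 1) := by noncomm_ring
    rw [e]
    exact P.add_mem (h.r _ _ hx) hy.1
  · have e : y * x' - 1 = y * (x' - x) + (y * x - 1) := by noncomm_ring
    rw [e]
    exact P.add_mem (h.l _ _ hx) hy.2

lemma ps_mul (h : Tr T P) {x1 x2 y1 y2 : A} (h1 : Inv P x1 y1) (h2 : Inv P x2 y2) :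
    ps T (x1 * x2) (y2 * y1) = ps T x1 y1 + ps T x2 y2 := by
  unfold ps
  have e1 : x1 * x2 * (y2 * y1) = x1 * ((x2 * y2 - 1) * y1) + x1 * y1 := by noncomm_ring
  have e2 : y2 * y1 * (x1 * x2) = y2 * ((y1 * x1 - 1) * x2) + y2 * x2 := by noncomm_ring
  have e3 : T (x1 * ((x2 * y2 - 1) * y1)) = T (x2 * y2) - T 1 +
      T ((x2 * y2 - 1) * (y1 * x1 - 1)) := by
    rw [h.t _ _ (h.r _ _ h2.1), ← map_sub, ← map_add]
    congr 1
    noncomm_ring
  have e4 : T (y2 * ((y1 * x1 - 1) * x2)) = T (y1 * x1) - T 1 +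
      T ((y1 * x1 - 1) * (x2 * y2 - 1)) := by
    rw [h.t _ _ (h.r _ _ h1.2), ← map_sub, ← map_add]
    congr 1
    noncomm_ring
  rw [e1, e2, map_add, map_add, e3, e4, h.t _ _ h1.2]
  abel

/-- invertible elements close to one have trivial commutator functional -/
lemma ps_near_one (h : Tr T P) {η e e' : A} {n : ℕ} (hη : η ^ (n + 1) ∈ P)
    (he : e - (1 + η) ∈ P) (hi : Inv P e e') : ps T e e' = 0 := by
  set w : A := ∑ j ∈ range (n + 1), (-η) ^ j with hw
  have hc : Commute (1 + η) w := by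
    refine Commute.sum_right _ _ _ fun j _ => ?_
    refine Commute.pow_right ?_ j
    refine Commute.neg_right ?_
    exact (Commute.one_left η).add_left (Commute.refl η)
  have h1 : (1 + η) * w = 1 - (-η) ^ (n + 1) := by
    have h2 := mul_neg_geom_sum (-η) (n + 1)
    rwa [sub_neg_eq_add] at h2
  have h3 : (-η) ^ (n + 1) ∈ P := by
    rw [neg_pow]
    exact h.l _ _ hη
  have hi' : Inv P (1 + η) w := by
    constructor
    · rw [h1, sub_sub_cancel_left]
      exact P.neg_mem h3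
    · rw [← hc.eq, h1, sub_sub_cancel_left]
      exact P.neg_mem h3
  rw [ps_congr h he hi hi']
  unfold ps
  rw [hc.eq, sub_self]

/-- `ps` only depends on the class modulo the nilpotent ideal -/
lemma ps_wd (h : Tr T P) {x x' y y' : A} {n : ℕ} (hη : (y * (x' - x)) ^ (n + 1) ∈ P)
    (hy : Inv P x y) (hy' : Inv P x' y') : ps T x y = ps T x' y' := by
  have hi : Inv P (y * x') (y' * x) := hy.symm.mul h hy'
  have h0 : ps T (y * x') (y' * x) = 0 := by
    refine ps_near_one h hη ?_ hi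
    have e : y * x' - (1 + y * (x' - x)) = y * x - 1 := by noncomm_ring
    rw [e]
    exact hy.2
  have h1 := ps_mul h hy hi
  rw [h0, add_zero] at h1
  rw [← h1]
  refine ps_congr h ?_ (hy.mul h hi) hy'
  have e : x * (y * x') - x' = (x * y - 1) * x' := by noncomm_ring
  rw [e]
  exact h.r _ _ hy.1

end Ring

variable {F : Type*} [Monoid F] {M : Type*} [AddCommGroup M]
  {d : Type*} [Fintype d] [DecidableEq d] {G : Type*} [Group G]

/-- the ideal `I ^ (n + 1) + p A` -/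
def Pp (π : F →* G) (n p : ℕ) : AddSubgroup (MonoidAlgebra ℤ F) where
  carrier := {a | ∃ b ∈ (Idl ℤ π) ^ (n + 1), ∃ r, a = b + p • r}
  zero_mem' := ⟨0, Submodule.zero_mem _, 0, by simp⟩
  add_mem' := by
    rintro _ _ ⟨b, hb, r, rfl⟩ ⟨b', hb', r', rfl⟩
    exact ⟨b + b', Submodule.add_mem _ hb hb', r + r', by rw [smul_add]; abel⟩
  neg_mem' := by
    rintro _ ⟨b, hb, r, rfl⟩
    exact ⟨-b, Submodule.neg_mem _ hb, -r, by rw [smul_neg]; abel⟩

lemma mem_Pp_of_J (π : F →* G) (n p : ℕ) {b : MonoidAlgebra ℤ F}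
    (hb : b ∈ (Idl ℤ π) ^ (n + 1)) : b ∈ Pp π n p := ⟨b, hb, 0, by simp⟩

lemma mem_Pp_of_p (π : F →* G) (n p : ℕ) (r : MonoidAlgebra ℤ F) : p • r ∈ Pp π n p :=
  ⟨0, Submodule.zero_mem _, r, by simp⟩

lemma Pp_Tr {p : ℕ} (hM : ∀ x : M, p • x = 0) (π : F →* G) (n : ℕ)
    (T : MonoidAlgebra ℤ F →ₗ[ℤ] M)
    (ha : ∀ x, ∀ a ∈ (Idl ℤ π) ^ (n + 1), T (x * a) = T (a * x)) :
    Tr T.toAddMonoidHom (Pp π n p) where
  l := by
    rintro x _ ⟨b, hb, r, rfl⟩
    exact ⟨x * b, mul_mem_Idl_pow π n x hb, x * r, by rw [mul_add, mul_smul_comm]⟩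
  r := by
    rintro x _ ⟨b, hb, r, rfl⟩
    exact ⟨b * x, Idl_pow_mul_mem π n x hb, r * x, by rw [add_mul, smul_mul_assoc]⟩
  t := by
    rintro x _ ⟨b, hb, r, rfl⟩
    show T _ = T _
    rw [mul_add, add_mul, map_add, map_add, ha x b hb, mul_smul_comm, smul_mul_assoc,
      map_nsmul, map_nsmul, hM, hM]

/-- the word inverse -/
lemma word_inv {p : ℕ} [hp : Fact p.Prime] (π : F →* G) {n : ℕ} (hn : n + 1 ≤ p) {f h : F}
    (hfh : π f * π h = 1) :
    Inv (Pp π n p) (MonoidAlgebra.single f (1 : ℤ))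
      (MonoidAlgebra.single (h * (f * h) ^ (p - 1)) (1 : ℤ)) := by
  have key : ∀ e : F, π e = 1 → MonoidAlgebra.single (e ^ p) (1 : ℤ) - 1 ∈ Pp π n p := by
    intro e he
    set z : MonoidAlgebra ℤ F := MonoidAlgebra.single e 1 - 1 with hz
    have hzI : z ∈ Idl ℤ π :=
      Submodule.subset_span ⟨e, 1, by rw [he, map_one], by rw [← MonoidAlgebra.one_def]⟩
    have h1 : MonoidAlgebra.single (e ^ p) (1 : ℤ) = (z + 1) ^ p := by
      rw [hz, sub_add_cancel, MonoidAlgebra.single_pow, one_pow]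
    obtain ⟨r, hr⟩ := (Commute.one_right z).exists_add_pow_prime_eq hp.out
    refine ⟨z ^ p, ?_, z * r, ?_⟩
    · exact Idl_pow_anti π hn (Submodule.pow_mem_pow _ hzI p)
    · rw [h1, hr, one_pow, mul_one, nsmul_eq_mul, mul_assoc]
      abel
  have e1 : f * (h * (f * h) ^ (p - 1)) = (f * h) ^ p := by
    rw [← mul_assoc, ← pow_succ', Nat.sub_add_cancel hp.out.one_le]
  have e2 : h * (f * h) ^ (p - 1) * f = (h * f) ^ p := by
    have : ∀ m : ℕ, h * (f * h) ^ m * f = (h * f) ^ (m + 1) := by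
      intro m
      induction m with
      | zero => simp
      | succ m ih =>
        rw [pow_succ' (f * h), pow_succ' (h * f) (m + 1), ← ih]
        simp only [mul_assoc]
    rw [this, Nat.sub_add_cancel hp.out.one_le]
  constructor
  · rw [MonoidAlgebra.single_mul_single, one_mul, e1]
    exact key _ (by rw [map_mul, hfh])
  · rw [MonoidAlgebra.single_mul_single, one_mul, e2]
    exact key _ (by rw [map_mul, (one_symm _ _).mp hfh])

lemma ps_word {p : ℕ} [hp : Fact p.Prime] (τ : F → M) (f h : F) :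
    ps (ex (k := ℤ) τ).toAddMonoidHom (MonoidAlgebra.single f (1 : ℤ))
      (MonoidAlgebra.single (h * (f * h) ^ (p - 1)) (1 : ℤ)) = τ ((f * h) ^ p) - τ ((h * f) ^ p) := by
  have e1 : f * (h * (f * h) ^ (p - 1)) = (f * h) ^ p := by
    rw [← mul_assoc, ← pow_succ', Nat.sub_add_cancel hp.out.one_le]
  have e2 : h * (f * h) ^ (p - 1) * f = (h * f) ^ p := by
    have : ∀ m : ℕ, h * (f * h) ^ m * f = (h * f) ^ (m + 1) := by
      intro m
      induction m with
      | zero => simp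
      | succ m ih =>
        rw [pow_succ' (f * h), pow_succ' (h * f) (m + 1), ← ih]
        simp only [mul_assoc]
    rw [this, Nat.sub_add_cancel hp.out.one_le]
  unfold ps
  rw [MonoidAlgebra.single_mul_single, MonoidAlgebra.single_mul_single, one_mul, e1, e2]
  show ex τ _ - ex τ _ = _
  rw [ex_one_single, ex_one_single]

lemma ps_words_wd {p : ℕ} (hM : ∀ x : M, p • x = 0) (π : F →* G) {n : ℕ} (T : MonoidAlgebra ℤ F →ₗ[ℤ] M)
    (ha : ∀ x, ∀ a ∈ (Idl ℤ π) ^ (n + 1), T (x * a) = T (a * x))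
    {f f' : F} (hf : π f = π f') {y y' : MonoidAlgebra ℤ F}
    (hy : Inv (Pp π n p) (MonoidAlgebra.single f (1 : ℤ)) y)
    (hy' : Inv (Pp π n p) (MonoidAlgebra.single f' (1 : ℤ)) y') :
    ps T.toAddMonoidHom (MonoidAlgebra.single f (1 : ℤ)) y =
      ps T.toAddMonoidHom (MonoidAlgebra.single f' (1 : ℤ)) y' := by
  refine ps_wd (n := n) (Pp_Tr hM π n T ha) ?_ hy hy'
  apply mem_Pp_of_J
  apply Submodule.pow_mem_pow
  apply mul_mem_Idl
  exact Submodule.subset_span ⟨f', f, hf.symm, rfl⟩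

/-- **Existence of the character.** -/
theorem exists_chi {p : ℕ} [hp : Fact p.Prime] (hM : ∀ x : M, p • x = 0) (π : F →* G)
    (hπ : Function.Surjective π) {n : ℕ}
    (hn : n + 1 ≤ p) (τ : F → M)
    (ha : ∀ x, ∀ a ∈ (Idl ℤ π) ^ (n + 1), ex τ (x * a) = ex τ (a * x)) :
    ∃ χ : G → M, (∀ a b, χ (a * b) = χ a + χ b) ∧ ∀ f h, π f * π h = 1 →
      τ ((f * h) ^ p) - τ ((h * f) ^ p) = χ (π f) := by
  choose s hs using hπ
  have hss : ∀ g, π (s g) * π (s g⁻¹) = 1 := fun g => by rw [hs, hs, mul_inv_cancel]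
  set χ : G → M := fun g => τ ((s g * s g⁻¹) ^ p) - τ ((s g⁻¹ * s g) ^ p) with hχ
  have key : ∀ f h, π f * π h = 1 → τ ((f * h) ^ p) - τ ((h * f) ^ p) = χ (π f) := by
    intro f h hfh
    have h1 := ps_words_wd hM π (ex τ) ha (f := f) (f' := s (π f)) (hs _).symm
      (word_inv π hn hfh) (word_inv π hn (hss (π f)))
    rwa [ps_word, ps_word] at h1
  refine ⟨χ, ?_, key⟩
  intro a b
  have hT := Pp_Tr hM π n (ex τ) ha
  have i1 := word_inv (p := p) (n := n) π hn (hss a)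
  have i2 := word_inv (p := p) (n := n) π hn (hss b)
  have i3 := word_inv (p := p) (n := n) π hn (hss (a * b))
  have i4 := i1.mul hT i2
  have h1 := ps_mul hT i1 i2
  rw [MonoidAlgebra.single_mul_single, one_mul] at i4
  rw [MonoidAlgebra.single_mul_single, one_mul] at h1
  have h2 := ps_words_wd hM π (ex τ) ha (f := s (a * b)) (f' := s a * s b)
    (by rw [map_mul, hs, hs, hs]) i3 i4
  rw [h1, ps_word, ps_word, ps_word] at h2
  exact h2

end Pool.Agent.H23R2.Odd
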