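import Pool.Agent.H23R2.Odd.Chi

/-!
# The algebraic core of the theorem on odd cycles
-/

set_option autoImplicit false
set_option linter.unusedSectionVars false
set_option linter.unusedSimpArgs false

namespace Pool.Agent.H23R2.Odd

open Finset Pool.Agent.H23R2 Pool.Agent.H23R2.Cyc Pool.Agent.H23R2.Ch
open scoped Pointwise

variable {F : Type*} [Monoid F] {M : Type*} [AddCommGroup M]
  {d : Type*} [Fintype d] [DecidableEq d] {G : Type*} [Group G]

lemma ex_add (Φ Ψ : F → M) (x : MonoidAlgebra ℤ F) :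
    ex (k := ℤ) (fun f => Φ f + Ψ f) x = ex Φ x + ex Ψ x := by
  induction x using MonoidAlgebra.induction_linear with
  | zero => simp
  | add x y h h' => rw [map_add, map_add, map_add, h, h']; abel
  | single f r => rw [ex_single, ex_single, ex_single, smul_add]

lemma ex_nat {M' : Type*} [AddCommGroup M'] (φ : M →+ M') (Φ : F → M) (x : MonoidAlgebra ℤ F) :
    ex (k := ℤ) (fun f => φ (Φ f)) x = φ (ex Φ x) := by
  induction x using MonoidAlgebra.induction_linear with
  | zero => simp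
  | add x y h h' => rw [map_add, map_add, map_add, h, h']
  | single f r => rw [ex_single, ex_single, map_zsmul]

lemma ex_zero (x : MonoidAlgebra ℤ F) : ex (k := ℤ) (fun _ : F => (0 : M)) x = 0 := by
  induction x using MonoidAlgebra.induction_linear with
  | zero => simp
  | add x y h h' => rw [map_add, h, h', add_zero]
  | single f r => rw [ex_single, smul_zero]

/-- The pairing `∑ v_ij(g) u_ji(g⁻¹) a(g)`. -/
noncomputable def lam (a : G → M) (v u : Matrix d d (MonoidAlgebra ℤ G)) : M :=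
  ∑ i, ∑ j, ex (k := ℤ) (fun g => (u j i).coeff g⁻¹ • a g) (v i j)

lemma lam_nat {M' : Type*} [AddCommGroup M'] (φ : M →+ M') (a : G → M)
    (v u : Matrix d d (MonoidAlgebra ℤ G)) : lam (fun g => φ (a g)) v u = φ (lam a v u) := by
  unfold lam
  rw [map_sum]
  refine Finset.sum_congr rfl fun i _ => ?_
  rw [map_sum]
  refine Finset.sum_congr rfl fun j _ => ?_
  rw [← ex_nat]
  congr 1
  congr 1
  funext g
  rw [map_zsmul]

/-- the map on monoid algebras -/
noncomputable def pm (π : F →* G) : MonoidAlgebra ℤ F →+* MonoidAlgebra ℤ G :=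
  MonoidAlgebra.mapDomainRingHom ℤ π

lemma pm_single (π : F →* G) (f : F) (r : ℤ) :
    pm π (MonoidAlgebra.single f r) = MonoidAlgebra.single (π f) r := by
  unfold pm
  simp

open Classical in
lemma ex_comm_eq (π : F →* G) (Φ : F → M) (χ : G → M)
    (h : ∀ f h, Φ (f * h) - Φ (h * f) = if π f * π h = 1 then χ (π f) else 0)
    (x y : MonoidAlgebra ℤ F) : ex Φ (x * y) - ex Φ (y * x) =
      ex (k := ℤ) (fun g => (pm π y).coeff g⁻¹ • χ g) (pm π x) := by
  induction x using MonoidAlgebra.induction_linear with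
  | zero => simp
  | add x x' hx hx' =>
    rw [add_mul, mul_add, map_add, map_add, map_add, map_add, ← hx, ← hx']
    abel
  | single f r =>
    rw [pm_single, ex_single]
    induction y using MonoidAlgebra.induction_linear with
    | zero => simp
    | add y y' hy hy' =>
      rw [add_mul, mul_add, map_add, map_add, map_add, MonoidAlgebra.coeff_add,
        Finsupp.add_apply, add_smul, smul_add, ← hy, ← hy']
      abel
    | single f' s =>
      rw [MonoidAlgebra.single_mul_single, MonoidAlgebra.single_mul_single, ex_single, ex_single,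
        mul_comm s r, ← smul_sub, h, pm_single, mul_smul]
      congr 1
      rw [MonoidAlgebra.coeff_single]
      by_cases hc : π f * π f' = 1
      · have : π f' = (π f)⁻¹ := eq_inv_of_mul_eq_one_right hc
        rw [if_pos hc, this]
        simp
      · have : ¬ (π f' = (π f)⁻¹) := fun e => hc (by rw [e, mul_inv_cancel])
        rw [if_neg hc]
        simp [this]

open Classical in
lemma Tm_lam (π : F →* G) (Φ : F → M) (χ : G → M)
    (h : ∀ f h, Φ (f * h) - Φ (h * f) = if π f * π h = 1 then χ (π f) else 0)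
    (V U : Matrix d d (MonoidAlgebra ℤ F)) : Tm (ex Φ) (V * U) - Tm (ex Φ) (U * V) =
      lam χ (V.map (pm π)) (U.map (pm π)) := by
  have h1 : Tm (ex Φ) (U * V) = ∑ i, ∑ j, ex Φ (U j i * V i j) := by
    rw [Tm_apply, Matrix.trace, map_sum, Finset.sum_comm]
    refine Finset.sum_congr rfl fun i _ => ?_
    rw [Matrix.diag_apply, Matrix.mul_apply, map_sum]
  have h2 : Tm (ex Φ) (V * U) = ∑ i, ∑ j, ex Φ (V i j * U j i) := by
    rw [Tm_apply, Matrix.trace, map_sum]
    refine Finset.sum_congr rfl fun i _ => ?_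
    rw [Matrix.diag_apply, Matrix.mul_apply, map_sum]
  rw [h1, h2, ← Finset.sum_sub_distrib]
  unfold lam
  refine Finset.sum_congr rfl fun i _ => ?_
  rw [← Finset.sum_sub_distrib]
  refine Finset.sum_congr rfl fun j _ => ?_
  rw [ex_comm_eq π Φ χ h]
  rfl

lemma supp_comm (Φ : F → M) (x y : MonoidAlgebra ℤ F)
    (h : ∀ f ∈ x.coeff.support, ∀ f' ∈ y.coeff.support, Φ (f * f') = Φ (f' * f)) :
    ex Φ (x * y) = ex Φ (y * x) := by
  have hdec : ∀ x : MonoidAlgebra ℤ F,
      x = ∑ g ∈ x.coeff.support, MonoidAlgebra.single g (x.coeff g) := by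
    classical
    intro x
    apply MonoidAlgebra.coeff_injective
    ext h
    rw [MonoidAlgebra.coeff_sum, Finset.sum_apply']
    by_cases hh : h ∈ x.coeff.support
    · rw [Finset.sum_eq_single h]
      · simp
      · intro g _ hgh
        simp [Finsupp.single_apply, hgh]
      · intro h'; exact absurd hh h'
    · rw [Finset.sum_eq_zero]
      · by_contra hne
        exact hh (Finsupp.mem_support_iff.mpr hne)
      · intro g hg
        have : g ≠ h := fun e => hh (e ▸ hg)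
        simp [Finsupp.single_apply, this]
  have e1 : ex Φ (x * y) = ∑ f ∈ x.coeff.support, ∑ f' ∈ y.coeff.support,
      (x.coeff f * y.coeff f') • Φ (f * f') := by
    conv_lhs => rw [hdec x, hdec y]
    rw [Finset.sum_mul, map_sum]
    refine Finset.sum_congr rfl fun f _ => ?_
    rw [Finset.mul_sum, map_sum]
    refine Finset.sum_congr rfl fun f' _ => ?_
    rw [MonoidAlgebra.single_mul_single, ex_single]
  have e2 : ex Φ (y * x) = ∑ f ∈ x.coeff.support, ∑ f' ∈ y.coeff.support,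
      (x.coeff f * y.coeff f') • Φ (f' * f) := by
    conv_lhs => rw [hdec x, hdec y]
    rw [Finset.mul_sum, map_sum]
    refine Finset.sum_congr rfl fun f _ => ?_
    rw [Finset.sum_mul, map_sum]
    refine Finset.sum_congr rfl fun f' _ => ?_
    rw [MonoidAlgebra.single_mul_single, ex_single, mul_comm]
  rw [e1, e2]
  exact Finset.sum_congr rfl fun f hf => Finset.sum_congr rfl fun f' hf' => by rw [h f hf f' hf']

lemma root_symm (q : ℕ) (x y : G) : (∃ z : G, z ^ q = x * y) ↔ (∃ z : G, z ^ q = y * x) := by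
  have key : ∀ x y : G, (∃ z : G, z ^ q = x * y) → (∃ z : G, z ^ q = y * x) := by
    rintro x y ⟨z, hz⟩
    refine ⟨x⁻¹ * z * x, ?_⟩
    have h1 : x⁻¹ * z * x = x⁻¹ * z * (x⁻¹)⁻¹ := by rw [inv_inv]
    rw [h1, conj_pow, hz]
    group
  exact ⟨key x y, key y x⟩

open Classical in
/-- **The core modulo `p`.** -/
theorem core_mod {p : ℕ} [hp : Fact p.Prime] (hM : ∀ x : M, p • x = 0) (π : F →* G)
    (hG : ∀ g : G, g ^ p = 1 → g = 1) (τ : F → M) (n : ℕ)
    (ha : ∀ x, ∀ a ∈ (Idl ℤ π) ^ (n + 1), ex τ (x * a) = ex τ (a * x))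
    (hb : ∀ x ∈ Idl ℤ π, ∀ y ∈ (Idl ℤ π) ^ (p - 1), ex τ (x * y) = ex τ (y * x))
    (hloc : ∀ f h, π f * π h ≠ 1 → (∀ j, ∃ x : G, x ^ p ^ j = π f * π h) →
      τ (f * h) = τ (h * f))
    (χ : G → M) (hχ : ∀ f h, π f * π h = 1 → τ ((f * h) ^ p) - τ ((h * f) ^ p) = χ (π f))
    (V U : Matrix d d (MonoidAlgebra ℤ F)) (hα : ∀ i j, (V * U - 1) i j ∈ (Idl ℤ π) ^ (n + 1))
    (hβ : ∀ i j, (U * V - 1) i j ∈ (Idl ℤ π) ^ (n + 1)) :
    Tm (ex τ) (V * U) - Tm (ex τ) (U * V) =
      ((-1 : ℤ) ^ (p - 1)) • lam χ (V.map (pm π)) (U.map (pm π)) := by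
  -- the level
  have hK : ∃ K : ℕ, 1 ≤ K ∧ ∀ i j, ∀ f ∈ (V i j).coeff.support, ∀ h ∈ (U j i).coeff.support,
      π f * π h ≠ 1 → (∃ x : G, x ^ p ^ K = π f * π h) → τ (f * h) = τ (h * f) := by
    have h1 : ∀ g : G, ∃ k : ℕ, (∃ x : G, x ^ p ^ k = g) → ∀ j, ∃ x : G, x ^ p ^ j = g := by
      intro g
      by_cases hg : ∀ j, ∃ x : G, x ^ p ^ j = g
      · exact ⟨0, fun _ => hg⟩
      · push Not at hg
        obtain ⟨j, hj⟩ := hg
        exact ⟨j, fun ⟨x, hx⟩ => absurd hx (hj x)⟩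
    choose k hk using h1
    have hmono : ∀ g : G, ∀ a b : ℕ, a ≤ b → (∃ x : G, x ^ p ^ b = g) → ∃ x : G, x ^ p ^ a = g := by
      rintro g a b hab ⟨x, hx⟩
      obtain ⟨c, rfl⟩ := Nat.exists_eq_add_of_le hab
      refine ⟨x ^ p ^ c, ?_⟩
      rw [← pow_mul, ← pow_add, add_comm, hx]
    refine ⟨1 + ∑ i, ∑ j, ∑ f ∈ (V i j).coeff.support, ∑ h ∈ (U j i).coeff.support,
      k (π f * π h), by omega, ?_⟩
    intro i j f hf h hh hne hroot
    refine hloc f h hne ?_
    apply hk
    refine hmono _ _ _ ?_ hroot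
    have a1 : k (π f * π h) ≤ ∑ h ∈ (U j i).coeff.support, k (π f * π h) :=
      Finset.single_le_sum (f := fun h => k (π f * π h)) (fun _ _ => Nat.zero_le _) hh
    have a2 : ∑ h ∈ (U j i).coeff.support, k (π f * π h) ≤
        ∑ f ∈ (V i j).coeff.support, ∑ h ∈ (U j i).coeff.support, k (π f * π h) :=
      Finset.single_le_sum (f := fun f => ∑ h ∈ (U j i).coeff.support, k (π f * π h))
        (fun _ _ => Nat.zero_le _) hf
    have a3 : ∑ f ∈ (V i j).coeff.support, ∑ h ∈ (U j i).coeff.support, k (π f * π h) ≤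
        ∑ j, ∑ f ∈ (V i j).coeff.support, ∑ h ∈ (U j i).coeff.support, k (π f * π h) :=
      Finset.single_le_sum (f := fun j => ∑ f ∈ (V i j).coeff.support,
        ∑ h ∈ (U j i).coeff.support, k (π f * π h)) (fun _ _ => Nat.zero_le _) (mem_univ j)
    have a4 : ∑ j, ∑ f ∈ (V i j).coeff.support, ∑ h ∈ (U j i).coeff.support, k (π f * π h) ≤
        ∑ i, ∑ j, ∑ f ∈ (V i j).coeff.support, ∑ h ∈ (U j i).coeff.support, k (π f * π h) :=
      Finset.single_le_sum (f := fun i => ∑ j, ∑ f ∈ (V i j).coeff.support,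
        ∑ h ∈ (U j i).coeff.support, k (π f * π h)) (fun _ _ => Nat.zero_le _) (mem_univ i)
    omega
  obtain ⟨K, hK1, hK⟩ := hK
  set c : G → Prop := fun g => g ≠ 1 ∧ ¬ ∃ x : G, x ^ p ^ K = g with hc
  set b : G → Prop := fun g => g ≠ 1 ∧ ∃ x : G, x ^ p ^ K = g with hb'
  have hcs : ∀ x y, c (x * y) ↔ c (y * x) := by
    intro x y
    simp only [hc, ne_eq, one_symm x y, root_symm (p ^ K) x y]
  have hbs : ∀ x y, b (x * y) ↔ b (y * x) := by
    intro x y
    simp only [hb', ne_eq, one_symm x y, root_symm (p ^ K) x y]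
  have hdec : ∀ x, ex (k := ℤ) τ x = ex (cut π (fun h => h = 1) τ) x + ex (cut π c τ) x +
      ex (cut π b τ) x := by
    intro x
    rw [← ex_add, ← ex_add]
    congr 1
    congr 1
    funext f
    unfold cut
    by_cases h1 : π f = 1
    · simp [hc, hb', h1]
    · by_cases h2 : ∃ x : G, x ^ p ^ K = π f
      · have h3 : ¬ c (π f) := fun h => h.2 h2
        have h4 : b (π f) := ⟨h1, h2⟩
        simp [h1, h3, h4]
      · have h3 : ¬ b (π f) := fun h => h2 h.2
        have h4 : c (π f) := ⟨h1, h2⟩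
        simp [h1, h3, h4]
  have hTdec : ∀ X : Matrix d d (MonoidAlgebra ℤ F), Tm (ex τ) X =
      Tm (ex (cut π (fun h => h = 1) τ)) X + Tm (ex (cut π c τ)) X + Tm (ex (cut π b τ)) X :=
    fun X => hdec X.trace
  have hpow : ∀ g : G, g ^ p ^ K = 1 → g = 1 := by
    have : ∀ m : ℕ, ∀ g : G, g ^ p ^ m = 1 → g = 1 := by
      intro m
      induction m with
      | zero => intro g hg; simpa using hg
      | succ m ih =>
        intro g hg
        rw [pow_succ, pow_mul] at hg
        exact ih _ (hG _ hg)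
    exact this K
  have h1 := part_one hM π hG τ n ha hb V U hα hβ
  have h2 := part_rest hM π τ n K hK1 c hcs (fun h hh => hh.2 ⟨h, rfl⟩) ha V U hα hβ
  have h3 : Tm (ex (cut π b τ)) (V * U) = Tm (ex (cut π b τ)) (U * V) := by
    rw [Tm_apply, Tm_apply, Matrix.trace, Matrix.trace, map_sum, map_sum]
    simp only [Matrix.diag_apply, Matrix.mul_apply, map_sum]
    rw [Finset.sum_comm]
    refine Finset.sum_congr rfl fun j _ => Finset.sum_congr rfl fun i _ => ?_
    refine supp_comm _ _ _ ?_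
    intro f hf h hh
    unfold cut
    rw [map_mul, map_mul]
    by_cases hbb : b (π f * π h)
    · rw [if_pos hbb, if_pos ((hbs _ _).mp hbb)]
      exact hK i j f hf h hh hbb.1 hbb.2
    · rw [if_neg hbb, if_neg (fun h' => hbb ((hbs _ _).mpr h'))]
  have h4 : Tm (ex (pw π τ p)) (V * U) - Tm (ex (pw π τ p)) (U * V) =
      lam χ (V.map (pm π)) (U.map (pm π)) := by
    refine Tm_lam π _ χ ?_ V U
    intro f h
    unfold pw cut
    by_cases hfh : π f * π h = 1
    · have hhf := (one_symm _ _).mp hfh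
      rw [if_pos (by rw [map_pow, map_mul, hfh, one_pow]),
        if_pos (by rw [map_pow, map_mul, hhf, one_pow]), if_pos hfh, hχ f h hfh]
    · have hhf : ¬ (π h * π f = 1) := fun e => hfh ((one_symm _ _).mp e)
      rw [if_neg, if_neg, if_neg hfh, sub_zero]
      · intro e
        rw [map_pow, map_mul] at e
        exact hhf (hG _ e)
      · intro e
        rw [map_pow, map_mul] at e
        exact hfh (hG _ e)
  rw [hTdec (V * U), hTdec (U * V), ← h4, ← h1, h3, ← sub_eq_zero.mp h2]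
  abel

/-- the universal character -/
noncomputable def ab (G : Type*) [Group G] : G → Additive (Abelianization G) :=
  fun g => Additive.ofMul (Abelianization.of g)

/-- **The core.** -/
theorem core {d' : Type*} [Fintype d'] [DecidableEq d'] (S : Set ℕ)
    (hS : ∀ p ∈ S, p.Prime ∧ ∀ g : G, g ^ p = 1 → g = 1)
    (hMS : ∀ x : M, x ≠ 0 → ∀ N : ℕ, ∃ p ∈ S, N < p ∧ ¬ ∃ y : M, p • y = x)
    (π : F →* G) (hπ : Function.Surjective π) (τ : F → M) (n : ℕ)
    (ha : ∀ x, ∀ a ∈ (Idl ℤ π) ^ (n + 1), ex τ (x * a) = ex τ (a * x))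
    (hb : ∀ m, n ≤ m → ∀ x ∈ Idl ℤ π, ∀ y ∈ (Idl ℤ π) ^ m, ex τ (x * y) = ex τ (y * x))
    (hloc : ∀ f h, π f * π h ≠ 1 → (∃ p ∈ S, ∀ j, ∃ x : G, x ^ p ^ j = π f * π h) →
      τ (f * h) = τ (h * f))
    (V U : Matrix d d (MonoidAlgebra ℤ F)) (hα : ∀ i j, (V * U - 1) i j ∈ (Idl ℤ π) ^ (n + 1))
    (hβ : ∀ i j, (U * V - 1) i j ∈ (Idl ℤ π) ^ (n + 1))
    (V' U' : Matrix d' d' (MonoidAlgebra ℤ F))
    (hα' : ∀ i j, (V' * U' - 1) i j ∈ (Idl ℤ π) ^ (n + 1))
    (hβ' : ∀ i j, (U' * V' - 1) i j ∈ (Idl ℤ π) ^ (n + 1))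
    (hl : lam (ab G) (V.map (pm π)) (U.map (pm π)) =
      lam (ab G) (V'.map (pm π)) (U'.map (pm π))) :
    Tm (ex τ) (V * U) - Tm (ex τ) (U * V) = Tm (ex τ) (V' * U') - Tm (ex τ) (U' * V') := by
  by_contra hne
  obtain ⟨p, hpS, hnp, hnd⟩ := hMS _ (sub_ne_zero.mpr hne) n
  obtain ⟨hp, hG⟩ := hS p hpS
  have : Fact p.Prime := ⟨hp⟩
  let N : AddSubgroup M := (nsmulAddMonoidHom (α := M) p).range
  let q : M →+ M ⧸ N := QuotientAddGroup.mk' N
  have hM : ∀ x : M ⧸ N, p • x = 0 := by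
    intro x
    obtain ⟨x, rfl⟩ := QuotientAddGroup.mk'_surjective N x
    rw [← map_nsmul]
    exact (QuotientAddGroup.eq_zero_iff _).mpr ⟨x, rfl⟩
  have hex : ∀ x, ex (k := ℤ) (fun f => q (τ f)) x = q (ex τ x) := fun x => ex_nat q τ x
  have ha2 : ∀ x, ∀ a ∈ (Idl ℤ π) ^ (n + 1), ex (k := ℤ) (fun f => q (τ f)) (x * a) =
      ex (fun f => q (τ f)) (a * x) := by
    intro x a h
    rw [hex, hex, ha x a h]
  have hb2 : ∀ x ∈ Idl ℤ π, ∀ a ∈ (Idl ℤ π) ^ (p - 1), ex (k := ℤ) (fun f => q (τ f)) (x * a) =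
      ex (fun f => q (τ f)) (a * x) := by
    intro x hx a h
    rw [hex, hex, hb (p - 1) (by omega) x hx a h]
  obtain ⟨χ, hχm, hχ⟩ := exists_chi hM π hπ (n := n) (by omega) (fun f => q (τ f)) ha2
  have hloc2 : ∀ f h, π f * π h ≠ 1 → (∀ j, ∃ x : G, x ^ p ^ j = π f * π h) →
      q (τ (f * h)) = q (τ (h * f)) := fun f h h1 h2 => by
    rw [hloc f h h1 ⟨p, hpS, h2⟩]
  have h1 := core_mod hM π hG (fun f => q (τ f)) n ha2 hb2 hloc2 χ hχ V U hα hβ
  have h2 := core_mod hM π hG (fun f => q (τ f)) n ha2 hb2 hloc2 χ hχ V' U' hα' hβ'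
  -- naturality
  let χm : G →* Multiplicative (M ⧸ N) :=
    { toFun := fun g => Multiplicative.ofAdd (χ g)
      map_one' := by
        have h3 := hχm 1 1
        rw [mul_one] at h3
        have h4 : χ 1 = 0 := by
          have h5 := congrArg (fun z => z - χ 1) h3
          simpa using h5.symm
        rw [h4]
        rfl
      map_mul' := fun a b => by rw [hχm]; rfl }
  let φ : Additive (Abelianization G) →+ M ⧸ N :=
    MonoidHom.toAdditiveLeft (Abelianization.lift χm)
  have hφ : χ = fun g => φ (ab G g) := by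
    funext g
    show χ g = Multiplicative.toAdd (Abelianization.lift χm (Abelianization.of g))
    rw [Abelianization.lift_apply_of]
    rfl
  have h3 : lam χ (V.map (pm π)) (U.map (pm π)) = lam χ (V'.map (pm π)) (U'.map (pm π)) := by
    rw [hφ, lam_nat, lam_nat, hl]
  rw [← h3] at h2
  have h4 : q (Tm (ex τ) (V * U) - Tm (ex τ) (U * V)) =
      q (Tm (ex τ) (V' * U') - Tm (ex τ) (U' * V')) := by
    have e1 : ∀ {d : Type _} [Fintype d] [DecidableEq d] (X : Matrix d d (MonoidAlgebra ℤ F)),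
        Tm (ex (k := ℤ) fun f => q (τ f)) X = q (Tm (ex τ) X) := fun X => hex X.trace
    rw [map_sub, map_sub, ← e1, ← e1, h1]
    have e2 : ∀ X : Matrix d' d' (MonoidAlgebra ℤ F),
        Tm (ex (k := ℤ) fun f => q (τ f)) X = q (Tm (ex τ) X) := fun X => hex X.trace
    rw [← e2, ← e2, h2]
  rw [← sub_eq_zero, ← map_sub] at h4
  obtain ⟨y, hy⟩ := (QuotientAddGroup.eq_zero_iff _).mp h4
  exact hnd ⟨y, hy⟩

end Pool.Agent.H23R2.Odd
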