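import Mathlib

/-!
# Potentials of closed cyclic one-cocycles on a free monoid

If `φ` is a Hochschild 1-cocycle on words with `φ [] y = 0`, with values in a torsion-free group,
then there is a function `t` on words with `t (x ++ y) - t (y ++ x) = φ x y`.
-/

set_option autoImplicit false

namespace Pool.Agent.H23R2.Odd

open Finset

variable {X M : Type*} [AddCommGroup M]

/-- the sum over all the cuts of a word -/
def cuts (φ : List X → List X → M) (l : List X) : M :=
  ∑ k ∈ range l.length, φ (l.take k) (l.drop k)

lemma cuts_append (φ : List X → List X → M) (x y : List X) :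
    cuts φ (x ++ y) = (∑ k ∈ range x.length, φ (x.take k) (x.drop k ++ y)) +
      ∑ k ∈ range y.length, φ (x ++ y.take k) (y.drop k) := by
  unfold cuts
  rw [List.length_append, Finset.sum_range_add]
  congr 1
  · refine Finset.sum_congr rfl fun k hk => ?_
    have hk' : k ≤ x.length := (Finset.mem_range.mp hk).le
    rw [List.take_append_of_le_length hk', List.drop_append_of_le_length hk']
  · refine Finset.sum_congr rfl fun k hk => ?_
    rw [List.take_length_add_append, List.drop_length_add_append]

lemma anti (φ : List X → List X → M)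
    (h1 : ∀ x y z, φ (x ++ y) z - φ x (y ++ z) + φ (z ++ x) y = 0) (h0 : ∀ y, φ [] y = 0)
    (x y : List X) : φ x y = - φ y x := by
  have h := h1 [] x y
  rw [List.nil_append, h0, sub_zero, List.append_nil] at h
  exact eq_neg_of_add_eq_zero_left h

lemma cuts_comm (φ : List X → List X → M)
    (h1 : ∀ x y z, φ (x ++ y) z - φ x (y ++ z) + φ (z ++ x) y = 0) (h0 : ∀ y, φ [] y = 0)
    (x y : List X) :
    cuts φ (x ++ y) - cuts φ (y ++ x) = (x.length + y.length) • φ x y := by
  rw [cuts_append, cuts_append]
  have e1 : ∀ k, φ (x.take k) (x.drop k ++ y) - φ (y ++ x.take k) (x.drop k) = φ x y := by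
    intro k
    have h := h1 (x.take k) (x.drop k) y
    rw [List.take_append_drop] at h
    rw [sub_eq_iff_eq_add]
    have h2 := sub_eq_zero.mp (show φ x y + φ (y ++ x.take k) (x.drop k) -
      φ (x.take k) (x.drop k ++ y) = 0 by rw [← h]; abel)
    rw [← h2]
  have e2 : ∀ k, φ (x ++ y.take k) (y.drop k) - φ (y.take k) (y.drop k ++ x) = φ x y := by
    intro k
    have h := h1 (y.take k) (y.drop k) x
    rw [List.take_append_drop, anti φ h1 h0 y x] at h
    rw [sub_eq_iff_eq_add]
    have h2 := sub_eq_zero.mp (show φ (x ++ y.take k) (y.drop k) -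
      (φ x y + φ (y.take k) (y.drop k ++ x)) = 0 by rw [← h]; abel)
    exact h2
  have e3 : (∑ k ∈ range x.length, φ (x.take k) (x.drop k ++ y)) -
      ∑ k ∈ range x.length, φ (y ++ x.take k) (x.drop k) = x.length • φ x y := by
    rw [← Finset.sum_sub_distrib, Finset.sum_congr rfl fun k _ => e1 k, Finset.sum_const,
      Finset.card_range]
  have e4 : (∑ k ∈ range y.length, φ (x ++ y.take k) (y.drop k)) -
      ∑ k ∈ range y.length, φ (y.take k) (y.drop k ++ x) = y.length • φ x y := by
    rw [← Finset.sum_sub_distrib, Finset.sum_congr rfl fun k _ => e2 k, Finset.sum_const,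
      Finset.card_range]
  rw [add_smul, ← e3, ← e4]
  abel

/-- a representative of the rotation class -/
noncomputable def rep (l : List X) : List X := (Quotient.out (l : Cycle X) : List X)

lemma rep_rot (l : List X) : List.IsRotated (rep l) l := by
  have h : ((rep l : List X) : Cycle X) = (l : Cycle X) := Quotient.out_eq _
  exact Cycle.coe_eq_coe.mp h

lemma rep_comm (x y : List X) : rep (x ++ y) = rep (y ++ x) := by
  unfold rep
  have h : ((x ++ y : List X) : Cycle X) = ((y ++ x : List X) : Cycle X) :=
    Cycle.coe_eq_coe.mpr List.isRotated_append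
  rw [h]

/-- **Existence of a potential.** -/
theorem exists_pot (φ : List X → List X → M)
    (h1 : ∀ x y z, φ (x ++ y) z - φ x (y ++ z) + φ (z ++ x) y = 0) (h0 : ∀ y, φ [] y = 0)
    (hM : ∀ (n : ℕ) (x : M), n ≠ 0 → n • x = 0 → x = 0) :
    ∃ t : List X → M, ∀ x y, t (x ++ y) - t (y ++ x) = φ x y := by
  have hex : ∀ l : List X, ∃ m : M, l.length • m = cuts φ l - cuts φ (rep l) := by
    intro l
    obtain ⟨n, hn⟩ := (rep_rot l).symm
    have h2 := cuts_comm φ h1 h0 (l.take (n % l.length)) (l.drop (n % l.length))
    rw [← List.length_append, List.take_append_drop] at h2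
    refine ⟨φ (l.take (n % l.length)) (l.drop (n % l.length)), ?_⟩
    rw [← h2]
    congr 2
    rw [← hn, List.rotate_eq_drop_append_take_mod]
  choose t ht using hex
  refine ⟨fun l => if l = [] then 0 else t l, fun x y => ?_⟩
  by_cases hxy : x.length + y.length = 0
  · have hx : x = [] := List.length_eq_zero_iff.mp (by omega)
    have hy : y = [] := List.length_eq_zero_iff.mp (by omega)
    subst hx; subst hy
    simp [h0]
  · apply eq_of_sub_eq_zero
    apply hM (x.length + y.length) _ hxy
    have hne1 : x ++ y ≠ [] := by
      intro h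
      have := congrArg List.length h
      rw [List.length_append] at this
      exact hxy this
    have hne2 : y ++ x ≠ [] := by
      intro h
      have := congrArg List.length h
      rw [List.length_append] at this
      exact hxy (by rw [add_comm]; exact this)
    simp only [hne1, hne2, if_false]
    rw [smul_sub, smul_sub, ← cuts_comm φ h1 h0 x y]
    have e1 := ht (x ++ y)
    have e2 := ht (y ++ x)
    rw [List.length_append] at e1 e2
    rw [add_comm y.length] at e2
    rw [e1, e2, rep_comm x y]
    abel

end Pool.Agent.H23R2.Odd
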