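import Pool.Agent.H23R2.Odd.Core
import Pool.Agent.H23R2.Odd.Pot
import Pool.Agent.H23R2.Ch.Cycle2

/-!
# Odd cycles and invertible matrices over group rings
-/

set_option autoImplicit false
set_option linter.unusedSectionVars false
set_option linter.unusedSimpArgs false

namespace Pool.Agent.H23R2.Odd

open Finset Pool.Agent.H23R2 Pool.Agent.H23R2.Cyc Pool.Agent.H23R2.Ch
open scoped Pointwise

variable {G : Type*} [Group G] {M : Type*} [AddCommGroup M]
  {d : Type*} [Fintype d] [DecidableEq d] {Ω : Type*} [Ring Ω]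
  {𝒜 : ℕ → Submodule ℤ Ω} [GradedAlgebra 𝒜] {δ : Ω →ₗ[ℤ] Ω} {T : Ω →ₗ[ℤ] M} {N : ℕ}
  {ρ : MonoidAlgebra ℤ G →ₐ[ℤ] Ω}

/-- degrees -/
lemma T_mul_delta {n i j : ℕ} (h : IsCycle (2 * n + 1) 𝒜 δ T) (hij : n + 1 ≤ i + j) {x y : Ω}
    (hx : x ∈ Ev 𝒜 i) (hy : y ∈ Ev 𝒜 j) : T (x * δ y) = 0 := by
  refine Ev_induction i (fun x => T (x * δ y) = 0) (by simp) ?_ ?_ hx
  · intro a b ha hb
    rw [add_mul, map_add, ha, hb, add_zero]
  · intro i' hi x hx
    refine Ev_induction j (fun y => T (x * δ y) = 0) (by simp) ?_ ?_ hy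
    · intro a b ha hb
      rw [map_add, mul_add, map_add, ha, hb, add_zero]
    · intro j' hj y hy
      exact h.dim (2 * i' + (2 * j' + 1)) (by omega) _ (mul_mem_deg hx (h.deg _ _ hy))

/-- the trace property for an odd form and an even one -/
lemma T_odd_even (h : IsCycle N 𝒜 δ T) {x y z : Ω} (hx : x ∈ Ev 𝒜 0) (hy : y ∈ Ev 𝒜 0)
    (hz : z ∈ Ev 𝒜 0) : T (x * δ y * z) = T (z * x * δ y) := by
  refine Ev_induction 0 (fun x => T (x * δ y * z) = T (z * x * δ y)) (by simp) ?_ ?_ hx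
  · intro a b ha hb
    simp only [add_mul, mul_add, map_add, ha, hb]
  · intro i _ x hx
    refine Ev_induction 0 (fun y => T (x * δ y * z) = T (z * x * δ y)) (by simp) ?_ ?_ hy
    · intro a b ha hb
      simp only [add_mul, mul_add, map_add, ha, hb]
    · intro j _ y hy
      refine Ev_induction 0 (fun z => T (x * δ y * z) = T (z * x * δ y)) (by simp) ?_ ?_ hz
      · intro a b ha hb
        simp only [add_mul, mul_add, map_add, ha, hb]
      · intro l _ z hz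
        have h1 := mul_mem_deg hx (h.deg _ _ hy)
        rw [h.trace _ _ _ h1 z hz,
          show (2 * i + (2 * j + 1)) * (2 * l) = 2 * ((2 * i + (2 * j + 1)) * l) by ring,
          (even_two_mul _).neg_one_pow, one_mul, mul_assoc]

lemma T_ddd (h : IsCycle N 𝒜 δ T) {x y : Ω} (hx : x ∈ Ev 𝒜 0) (hy : y ∈ Ev 𝒜 0) (z : Ω) :
    T (δ x * δ y * δ z) = 0 := by
  have h1 : δ (x * (δ y * δ z)) = δ x * (δ y * δ z) := by
    rw [leib h hx, dd h hy, mul_zero, add_zero]
  rw [mul_assoc, ← h1, h.closed]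

/-- the cocycle on words -/
noncomputable def ph (T : Ω →ₗ[ℤ] M) (δ : Ω →ₗ[ℤ] Ω) (ρ : MonoidAlgebra ℤ G →ₐ[ℤ] Ω)
    (v w : FreeMonoid G) : M := T (Wm δ ρ v 1 * δ (Wm δ ρ w 1))

lemma Wm_mul_one (h : IsCycle N 𝒜 δ T) (hρ : ∀ a, ρ a ∈ 𝒜 0) (v w : FreeMonoid G) :
    Wm δ ρ (v * w) 1 = Wm δ ρ v 1 * Wm δ ρ w 1 - δ (Wm δ ρ v 1) * δ (Wm δ ρ w 1) := by
  rw [map_mul, Module.End.mul_apply, Wm_formula h hρ v]

lemma one_Ev : (1 : Ω) ∈ Ev 𝒜 0 := deg_zero_Ev (SetLike.GradedOne.one_mem)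

lemma ph_cocycle (h : IsCycle N 𝒜 δ T) (hρ : ∀ a, ρ a ∈ 𝒜 0) (x y z : FreeMonoid G) :
    ph T δ ρ (x * y) z - ph T δ ρ x (y * z) + ph T δ ρ (z * x) y = 0 := by
  have hx := Wm_Ev h hρ 0 x one_Ev
  have hy := Wm_Ev h hρ 0 y one_Ev
  have hz := Wm_Ev h hρ 0 z one_Ev
  unfold ph
  rw [Wm_mul_one h hρ, Wm_mul_one h hρ, Wm_mul_one h hρ]
  set a := Wm δ ρ x 1
  set b := Wm δ ρ y 1
  set c := Wm δ ρ z 1
  have e1 : δ (b * c - δ b * δ c) = δ b * c + b * δ c := by
    rw [map_sub, dd h hy, leib h hy, sub_zero]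
  rw [e1]
  have e2 : (a * b - δ a * δ b) * δ c = a * b * δ c - δ a * δ b * δ c := by noncomm_ring
  have e3 : a * (δ b * c + b * δ c) = a * δ b * c + a * b * δ c := by noncomm_ring
  have e4 : (c * a - δ c * δ a) * δ b = c * a * δ b - δ c * δ a * δ b := by noncomm_ring
  rw [e2, e3, e4, map_sub, map_add, map_sub, T_ddd h hx hy, T_ddd h hz hx, T_odd_even h hx hy hz]
  abel

lemma ph_one (h : IsCycle N 𝒜 δ T) (y : FreeMonoid G) : ph T δ ρ 1 y = 0 := by
  unfold ph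
  have h1 : Wm δ ρ (1 : FreeMonoid G) = 1 := map_one _
  rw [h1, Module.End.one_apply, one_mul, h.closed]

lemma tors (S : Set ℕ) (hS : ∀ p ∈ S, p.Prime)
    (hMS : ∀ x : M, x ≠ 0 → ∀ N : ℕ, ∃ p ∈ S, N < p ∧ ¬ ∃ y : M, p • y = x) (n : ℕ) (x : M)
    (hn : n ≠ 0) (hx : n • x = 0) : x = 0 := by
  by_contra hne
  obtain ⟨p, hpS, hnp, hnd⟩ := hMS x hne n
  have hcop : IsCoprime (n : ℤ) (p : ℤ) := by
    rw [Nat.isCoprime_iff_coprime]
    refine ((hS p hpS).coprime_iff_not_dvd.mpr fun hd => ?_).symm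
    have := Nat.le_of_dvd (Nat.pos_of_ne_zero hn) hd
    omega
  obtain ⟨a, b, hab⟩ := hcop
  apply hnd
  refine ⟨b • x, ?_⟩
  have h1 : (1 : ℤ) • x = a • (n • x) + p • (b • x) := by
    rw [← hab, add_smul, mul_smul, mul_smul, natCast_zsmul, natCast_zsmul, smul_comm b p x]
  rw [one_smul, hx, smul_zero, zero_add] at h1
  exact h1.symm

/-- **The potential.** -/
lemma exists_tau (S : Set ℕ) (hS : ∀ p ∈ S, p.Prime)
    (hMS : ∀ x : M, x ≠ 0 → ∀ N : ℕ, ∃ p ∈ S, N < p ∧ ¬ ∃ y : M, p • y = x)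
    (h : IsCycle N 𝒜 δ T) (hρ : ∀ a, ρ a ∈ 𝒜 0) :
    ∃ τ : FreeMonoid G → M, ∀ x y, τ (x * y) - τ (y * x) = ph T δ ρ x y := by
  obtain ⟨t, ht⟩ := exists_pot (fun x y : List G => ph T δ ρ (FreeMonoid.ofList x)
    (FreeMonoid.ofList y)) (fun x y z => ph_cocycle h hρ (FreeMonoid.ofList x)
      (FreeMonoid.ofList y) (FreeMonoid.ofList z)) (fun y => ph_one h _) (tors S hS hMS)
  exact ⟨fun w => t (FreeMonoid.toList w), fun x y => ht (FreeMonoid.toList x)
    (FreeMonoid.toList y)⟩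

lemma Wa_single_one (w : FreeMonoid G) (r : ℤ) :
    Wa δ ρ (MonoidAlgebra.single w r) 1 = r • Wm δ ρ w 1 := by
  rw [Wa, MonoidAlgebra.lift_single, LinearMap.smul_apply]

lemma tau_ext {τ : FreeMonoid G → M} (hτ : ∀ x y, τ (x * y) - τ (y * x) = ph T δ ρ x y)
    (x y : MonoidAlgebra ℤ (FreeMonoid G)) :
    ex (k := ℤ) τ (x * y) - ex τ (y * x) = T (Wa δ ρ x 1 * δ (Wa δ ρ y 1)) := by
  induction x using MonoidAlgebra.induction_linear with
  | zero => simp
  | add x x' hx hx' =>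
    rw [add_mul, mul_add, map_add, map_add, map_add, LinearMap.add_apply, add_mul, map_add, ← hx,
      ← hx']
    abel
  | single f r =>
    induction y using MonoidAlgebra.induction_linear with
    | zero => simp
    | add y y' hy hy' =>
      rw [add_mul, mul_add, map_add, map_add, map_add, LinearMap.add_apply, map_add, mul_add,
        map_add, ← hy, ← hy']
      abel
    | single f' s =>
      rw [MonoidAlgebra.single_mul_single, MonoidAlgebra.single_mul_single, ex_single, ex_single,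
        mul_comm s r, ← smul_sub, hτ, Wa_single_one, Wa_single_one, map_smul, smul_mul_smul_comm,
        map_smul]
      rfl

lemma Wa_one_Ev (h : IsCycle N 𝒜 δ T) (hρ : ∀ a, ρ a ∈ 𝒜 0)
    (x : MonoidAlgebra ℤ (FreeMonoid G)) : Wa δ ρ x 1 ∈ Ev 𝒜 0 := by
  induction x using MonoidAlgebra.induction_linear with
  | zero => simp
  | add x y hx hy => rw [map_add, LinearMap.add_apply]; exact Submodule.add_mem _ hx hy
  | single f r =>
    rw [Wa_single_one]
    exact Submodule.smul_mem _ _ (Wm_Ev h hρ 0 f one_Ev)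

/-- homogeneity -/
lemma T_Se_mul {n : ℕ} (h : IsCycle (2 * n + 1) 𝒜 δ T) (hρ : ∀ a, ρ a ∈ 𝒜 0) (g g' : G)
    (hg : ∀ (a : G) (l : List G), l.length = 2 * n + 1 → a * l.prod = g * g' →
      T (ρ (MonoidAlgebra.single a 1) * pf δ ρ l) = 0) {x y : Ω} (hx : x ∈ Se δ ρ g)
    (hy : y ∈ Se δ ρ g') : T (x * δ y) = 0 := by
  refine Submodule.iSup_induction _ (motive := fun x => T (x * δ y) = 0) hx ?_ (by simp) ?_
  · intro j x hx
    refine Submodule.span_induction (p := fun x _ => T (x * δ y) = 0) ?_ (by simp) ?_ ?_ hx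
    · rintro _ ⟨a, l, hl, hal, rfl⟩
      refine Submodule.iSup_induction _ (motive := fun y =>
        T (ρ (MonoidAlgebra.single a 1) * pf δ ρ l * δ y) = 0) hy ?_ (by simp) ?_
      · intro j' y hy
        refine Submodule.span_induction (p := fun y _ =>
          T (ρ (MonoidAlgebra.single a 1) * pf δ ρ l * δ y) = 0) ?_ (by simp) ?_ ?_ hy
        · rintro _ ⟨b, l', hl', hbl', rfl⟩
          have e1 : δ (ρ (MonoidAlgebra.single b 1) * pf δ ρ l') =
              δ (ρ (MonoidAlgebra.single b 1)) * pf δ ρ l' := by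
            rw [leib h (deg_zero_Ev (hρ _)), delta_pf h hρ, mul_zero, add_zero]
          have e2 : ρ (MonoidAlgebra.single a 1) * pf δ ρ l * δ (ρ (MonoidAlgebra.single b 1) *
              pf δ ρ l') = ρ (MonoidAlgebra.single a 1) * pf δ ρ (l ++ b :: l') := by
            rw [e1]
            simp [pf, mul_assoc]
          rw [e2]
          by_cases hj : (l ++ b :: l').length = 2 * n + 1
          · refine hg a _ hj ?_
            rw [List.prod_append, List.prod_cons, ← mul_assoc, hal, hbl']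
          · refine h.dim (0 + (l ++ b :: l').length) (by omega) _ ?_
            exact mul_mem_deg (hρ (MonoidAlgebra.single a 1)) (pf_deg h hρ _)
        · intro x y _ _ hx hy
          rw [map_add, mul_add, map_add, hx, hy, add_zero]
        · intro r x _ hx
          rw [map_smul, mul_smul_comm, map_smul, hx, smul_zero]
      · intro x y hx hy
        rw [map_add, mul_add, map_add, hx, hy, add_zero]
    · intro x y _ _ hx hy
      rw [add_mul, map_add, hx, hy, add_zero]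
    · intro r x _ hx
      rw [smul_mul_assoc, map_smul, hx, smul_zero]
  · intro x y hx hy
    rw [add_mul, map_add, hx, hy, add_zero]

/-! ### The lifted pair -/

/-- `E = 1 - sec(u) sec(v)` -/
noncomputable def EE (u v : Matrix d d (MonoidAlgebra ℤ G)) :
    Matrix d d (MonoidAlgebra ℤ (FreeMonoid G)) := 1 - u.map (sec ℤ G) * v.map (sec ℤ G)

/-- the lift of the inverse -/
noncomputable def VV (n : ℕ) (u v : Matrix d d (MonoidAlgebra ℤ G)) :
    Matrix d d (MonoidAlgebra ℤ (FreeMonoid G)) :=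
  v.map (sec ℤ G) * ∑ j ∈ range (n + 1), (EE u v) ^ j

lemma EE_mem (u v : Matrix d d (MonoidAlgebra ℤ G)) (huv : u * v = 1) (i j : d) :
    EE u v i j ∈ Idl ℤ (pr G) := by
  have h1 : EE u v i j = ((1 : Matrix d d (MonoidAlgebra ℤ (FreeMonoid G))) i j -
      sec ℤ G ((1 : Matrix d d (MonoidAlgebra ℤ G)) i j)) +
      ∑ l, (sec ℤ G (u i l * v l j) - sec ℤ G (u i l) * sec ℤ G (v l j)) := by
    have h0 : ∑ l, u i l * v l j = (1 : Matrix d d (MonoidAlgebra ℤ G)) i j := by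
      rw [← huv, Matrix.mul_apply]
    rw [EE, Matrix.sub_apply, Matrix.mul_apply, Finset.sum_sub_distrib, ← map_sum, h0]
    simp only [Matrix.map_apply]
    abel
  rw [h1]
  refine Submodule.add_mem _ ?_ (Submodule.sum_mem _ fun l _ => sec_Idl _ _)
  rw [Matrix.one_apply, Matrix.one_apply]
  split_ifs
  · refine Submodule.subset_span ⟨1, FreeMonoid.of 1, by simp [pr], ?_⟩
    rw [← MonoidAlgebra.one_def, MonoidAlgebra.one_def (M := G), sec_single]
  · simp

lemma EE_pow_mem (u v : Matrix d d (MonoidAlgebra ℤ G)) (huv : u * v = 1) (m : ℕ) (i j : d) :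
    ((EE u v) ^ m) i j ∈ (Idl ℤ (pr G)) ^ m := by
  induction m generalizing i j with
  | zero =>
    rw [pow_zero, pow_zero, Matrix.one_apply]
    split_ifs
    · exact Submodule.one_le.mp le_rfl
    · exact Submodule.zero_mem _
  | succ m ih =>
    rw [pow_succ, pow_succ, Matrix.mul_apply]
    exact Submodule.sum_mem _ fun l _ => Submodule.mul_mem_mul (ih i l) (EE_mem u v huv l j)

lemma UV_eq (n : ℕ) (u v : Matrix d d (MonoidAlgebra ℤ G)) :
    u.map (sec ℤ G) * VV n u v - 1 = -(EE u v) ^ (n + 1) := by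
  have h1 : u.map (sec ℤ G) * v.map (sec ℤ G) = 1 - EE u v := by
    rw [EE, sub_sub_cancel]
  rw [VV, ← mul_assoc, h1, mul_neg_geom_sum]
  abel

lemma VU_eq (n : ℕ) (u v : Matrix d d (MonoidAlgebra ℤ G)) :
    VV n u v * u.map (sec ℤ G) - 1 = -(EE v u) ^ (n + 1) := by
  have h1 : v.map (sec ℤ G) * u.map (sec ℤ G) = 1 - EE v u := by
    rw [EE, sub_sub_cancel]
  have h2 : ∀ j, EE u v ^ j * u.map (sec ℤ G) = u.map (sec ℤ G) * EE v u ^ j := by
    intro j
    induction j with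
    | zero => simp
    | succ j ih =>
      rw [pow_succ, mul_assoc, show EE u v * u.map (sec ℤ G) = u.map (sec ℤ G) * EE v u by
        unfold EE; noncomm_ring, ← mul_assoc, ih, mul_assoc, ← pow_succ]
  rw [VV, mul_assoc, Finset.sum_mul, Finset.sum_congr rfl fun j _ => h2 j, ← Finset.mul_sum,
    ← mul_assoc, h1, mul_neg_geom_sum]
  abel

lemma pm_sec (x : MonoidAlgebra ℤ G) : pm (pr G) (sec ℤ G x) = x := by
  induction x using MonoidAlgebra.induction_linear with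
  | zero => simp
  | add x y hx hy => rw [map_add, map_add, hx, hy]
  | single g r => rw [sec_single, pm_single]; simp [pr]

lemma pm_EE (u v : Matrix d d (MonoidAlgebra ℤ G)) (huv : u * v = 1) :
    (EE u v).map (pm (pr G)) = 0 := by
  have h1 : (pm (pr G)).mapMatrix (EE u v) = 0 := by
    unfold EE
    rw [map_sub, map_mul, map_one]
    have h2 : ∀ w : Matrix d d (MonoidAlgebra ℤ G),
        (pm (pr G)).mapMatrix (w.map (sec ℤ G)) = w := by
      intro w
      ext1 i j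
      exact pm_sec _
    rw [h2, h2, huv, sub_self]
  exact h1

lemma pm_VV (n : ℕ) (u v : Matrix d d (MonoidAlgebra ℤ G)) (huv : u * v = 1) :
    (VV n u v).map (pm (pr G)) = v := by
  have h1 : (pm (pr G)).mapMatrix (VV n u v) = v := by
    unfold VV
    rw [map_mul, map_sum, Finset.sum_range_succ']
    have h2 : (pm (pr G)).mapMatrix (v.map (sec ℤ G)) = v := by
      ext1 i j
      exact pm_sec _
    have h3 : (pm (pr G)).mapMatrix (EE u v) = 0 := pm_EE u v huv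
    rw [h2, Finset.sum_eq_zero]
    · simp
    · intro j _
      rw [map_pow, h3, zero_pow (by omega)]
  exact h1

lemma pm_map_sec (u : Matrix d d (MonoidAlgebra ℤ G)) :
    (u.map (sec ℤ G)).map (pm (pr G)) = u := by
  ext1 i j
  exact pm_sec _

lemma map_ρ_mul (u v : Matrix d d (MonoidAlgebra ℤ G)) (huv : u * v = 1) :
    u.map ρ * v.map ρ = 1 := by
  have h1 := congrArg (fun X : Matrix d d (MonoidAlgebra ℤ G) => X.map ρ) huv
  simp only [Matrix.map_mul] at h1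
  rw [h1]
  ext1 i j
  rw [Matrix.map_apply, Matrix.one_apply, Matrix.one_apply]
  split_ifs <;> simp

lemma wM_EE (h : IsCycle N 𝒜 δ T) (hρ : ∀ a, ρ a ∈ 𝒜 0) (u v : Matrix d d (MonoidAlgebra ℤ G))
    (huv : u * v = 1) (Z : Matrix d d (MonoidAlgebra ℤ (FreeMonoid G))) :
    wM δ ρ (EE u v * Z) = ((u.map ρ).map δ * (v.map ρ).map δ) * wM δ ρ Z := by
  have hu : ∀ i j, (u.map ρ) i j ∈ Ev 𝒜 0 := fun i j => deg_zero_Ev (hρ _)
  have hv : ∀ i j, (v.map ρ) i j ∈ Ev 𝒜 0 := fun i j => deg_zero_Ev (hρ _)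
  have hba := map_ρ_mul (ρ := ρ) u v huv
  rw [EE, sub_mul, one_mul, wM_sub, mul_assoc, wM_mul, wM_mul]
  set a := v.map ρ with ha
  set b := u.map ρ with hb
  set z := wM δ ρ Z with hz
  have h1 : b.map δ * a + b * a.map δ = 0 := by
    rw [← map_leib h b a hu, hba]
    ext i j
    rw [Matrix.map_apply, Matrix.one_apply]
    split_ifs
    · rw [delta_one h]; rfl
    · simp
  have h2 : (a * z - a.map δ * z.map δ).map δ = a.map δ * z + a * z.map δ := by
    rw [Ch.map_sub', map_leib h a z hv, map_leib_odd h a _ hv, map_dd h, mul_zero, neg_zero,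
      sub_zero]
  rw [h2]
  have h3 : z - (b * (a * z - a.map δ * z.map δ) - b.map δ * (a.map δ * z + a * z.map δ)) =
      (z - b * a * z) + b.map δ * a.map δ * z + (b.map δ * a + b * a.map δ) * z.map δ := by
    noncomm_ring
  rw [h3, h1, hba]
  simp

lemma wM_EEpow (h : IsCycle N 𝒜 δ T) (hρ : ∀ a, ρ a ∈ 𝒜 0)
    (u v : Matrix d d (MonoidAlgebra ℤ G))
    (huv : u * v = 1) (j : ℕ) (Z : Matrix d d (MonoidAlgebra ℤ (FreeMonoid G))) :
    wM δ ρ ((EE u v) ^ j * Z) = ((u.map ρ).map δ * (v.map ρ).map δ) ^ j * wM δ ρ Z := by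
  induction j with
  | zero => simp
  | succ j ih =>
    rw [pow_succ', mul_assoc, wM_EE h hρ u v huv, ih, pow_succ' (_ * _) j]
    simp only [mul_assoc]

lemma dd_closed (h : IsCycle N 𝒜 δ T) (hρ : ∀ a, ρ a ∈ 𝒜 0)
    (u v : Matrix d d (MonoidAlgebra ℤ G)) (m : ℕ) :
    (((u.map ρ).map δ * (v.map ρ).map δ) ^ m).map δ = 0 := by
  have hu : ∀ i j, (u.map ρ) i j ∈ Ev 𝒜 0 := fun i j => deg_zero_Ev (hρ _)
  have hv : ∀ i j, (v.map ρ) i j ∈ Ev 𝒜 0 := fun i j => deg_zero_Ev (hρ _)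
  induction m with
  | zero =>
    ext i j
    simp only [pow_zero, Matrix.map_apply, Matrix.one_apply, Matrix.zero_apply]
    split_ifs
    · exact delta_one h
    · simp
  | succ m ih =>
    rw [pow_succ', mul_assoc, map_leib_odd h _ _ hu, map_leib_odd h _ _ hv, ih]
    simp

lemma wM_add (Z Z' : Matrix d d (MonoidAlgebra ℤ (FreeMonoid G))) :
    wM δ ρ (Z + Z') = wM δ ρ Z + wM δ ρ Z' := by
  ext i j
  simp [wM]

lemma wM_sum {ι : Type*} (s : Finset ι) (Z : ι → Matrix d d (MonoidAlgebra ℤ (FreeMonoid G))) :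
    wM δ ρ (∑ i ∈ s, Z i) = ∑ i ∈ s, wM δ ρ (Z i) := by
  classical
  induction s using Finset.induction_on with
  | empty => ext i j; simp [wM]
  | insert a s ha ih => rw [Finset.sum_insert ha, Finset.sum_insert ha, wM_add, ih]

lemma wM_sec (h : IsCycle N 𝒜 δ T) (u : Matrix d d (MonoidAlgebra ℤ G)) :
    wM δ ρ (u.map (sec ℤ G)) = u.map ρ := by
  have h1 := wM_mul (δ := δ) (ρ := ρ) u 1
  rw [mul_one, wM_one, mul_one] at h1
  rw [h1]
  have h2 : (1 : Matrix d d Ω).map δ = 0 := by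
    ext i j
    simp only [Matrix.map_apply, Matrix.one_apply, Matrix.zero_apply]
    split_ifs
    · exact delta_one h
    · simp
  rw [h2, mul_zero, sub_zero]

lemma wM_VV (h : IsCycle N 𝒜 δ T) (hρ : ∀ a, ρ a ∈ 𝒜 0) (n : ℕ)
    (u v : Matrix d d (MonoidAlgebra ℤ G)) (huv : u * v = 1) :
    wM δ ρ (VV n u v) =
      ∑ j ∈ range (n + 1), v.map ρ * ((u.map ρ).map δ * (v.map ρ).map δ) ^ j := by
  rw [VV, Finset.mul_sum, wM_sum]
  refine Finset.sum_congr rfl fun j _ => ?_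
  have h1 := wM_EEpow h hρ u v huv j 1
  rw [mul_one, wM_one, mul_one] at h1
  rw [wM_mul, h1, dd_closed h hρ, mul_zero, sub_zero]

/-- the pairing of a pair of inverse matrices with an odd cycle -/
noncomputable def prg (n : ℕ) (T : Ω →ₗ[ℤ] M) (δ : Ω →ₗ[ℤ] Ω) (a b : Matrix d d Ω) : M :=
  T (a * b.map δ * (a.map δ * b.map δ) ^ n).trace

lemma T_tr_zero {m : ℕ} (h : IsCycle N 𝒜 δ T) (hm : m ≠ N) (A : Matrix d d Ω)
    (hA : ∀ i j, A i j ∈ 𝒜 m) : T A.trace = 0 := by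
  rw [Matrix.trace, map_sum]
  exact Finset.sum_eq_zero fun i _ => h.dim m hm _ (hA i i)

lemma dd_deg (h : IsCycle N 𝒜 δ T) (hρ : ∀ a, ρ a ∈ 𝒜 0)
    (u v : Matrix d d (MonoidAlgebra ℤ G))
    (m : ℕ) (i j : d) : (((u.map ρ).map δ * (v.map ρ).map δ) ^ m) i j ∈ 𝒜 (2 * m) := by
  have h1 : ∀ w : Matrix d d (MonoidAlgebra ℤ G), ∀ i j, ((w.map ρ).map δ) i j ∈ 𝒜 1 := by
    intro w i j
    have := h.deg 0 _ (hρ (w i j))
    simpa using this
  induction m generalizing i j with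
  | zero => simpa using mat_one_deg i j
  | succ m ih =>
    rw [pow_succ, show 2 * (m + 1) = 2 * m + (1 + 1) by ring]
    exact mat_mul_deg ih (mat_mul_deg (h1 u) (h1 v)) i j

/-- the value of the potential on the commutator -/
lemma Tm_prg {n : ℕ} (h : IsCycle (2 * n + 1) 𝒜 δ T) (hρ : ∀ a, ρ a ∈ 𝒜 0)
    {τ : FreeMonoid G → M} (hτ : ∀ x y, τ (x * y) - τ (y * x) = ph T δ ρ x y)
    (u v : Matrix d d (MonoidAlgebra ℤ G)) (huv : u * v = 1) :
    Tm (ex τ) (VV n u v * u.map (sec ℤ G)) - Tm (ex τ) (u.map (sec ℤ G) * VV n u v) =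
      prg n T δ (v.map ρ) (u.map ρ) := by
  set V := VV n u v with hV
  set U := u.map (sec ℤ G) with hU
  have h1 : Tm (ex τ) (U * V) = ∑ i, ∑ j, ex τ (U j i * V i j) := by
    rw [Tm_apply, Matrix.trace, map_sum, Finset.sum_comm]
    refine Finset.sum_congr rfl fun i _ => ?_
    rw [Matrix.diag_apply, Matrix.mul_apply, map_sum]
  have h2 : Tm (ex τ) (V * U) = ∑ i, ∑ j, ex τ (V i j * U j i) := by
    rw [Tm_apply, Matrix.trace, map_sum]
    refine Finset.sum_congr rfl fun i _ => ?_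
    rw [Matrix.diag_apply, Matrix.mul_apply, map_sum]
  have h3 : Tm (ex τ) (V * U) - Tm (ex τ) (U * V) =
      T (wM δ ρ V * (wM δ ρ U).map δ).trace := by
    rw [h1, h2, ← Finset.sum_sub_distrib, Matrix.trace, map_sum]
    refine Finset.sum_congr rfl fun i _ => ?_
    rw [← Finset.sum_sub_distrib, Matrix.diag_apply, Matrix.mul_apply, map_sum]
    refine Finset.sum_congr rfl fun j _ => ?_
    rw [tau_ext hτ]
    rfl
  have hb1 : ∀ w : Matrix d d (MonoidAlgebra ℤ G), ∀ i j, ((w.map ρ).map δ) i j ∈ 𝒜 1 := by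
    intro w i j
    have := h.deg 0 _ (hρ (w i j))
    simpa using this
  rw [h3, hU, wM_sec h, hV, wM_VV h hρ n u v huv, Finset.sum_mul, Matrix.trace_sum, map_sum,
    Finset.sum_range_succ, Finset.sum_eq_zero, zero_add]
  · unfold prg
    congr 2
    have : ∀ m : ℕ, ((u.map ρ).map δ * (v.map ρ).map δ) ^ m * (u.map ρ).map δ =
        (u.map ρ).map δ * ((v.map ρ).map δ * (u.map ρ).map δ) ^ m := by
      intro m
      induction m with
      | zero => simp
      | succ m ih =>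
        rw [pow_succ, mul_assoc, mul_assoc, ← mul_assoc (_ ^ m), ih, mul_assoc, ← pow_succ]
    rw [mul_assoc, this, mul_assoc]
  · intro j hj
    have hj' := Finset.mem_range.mp hj
    refine T_tr_zero h (m := 0 + 2 * j + 1) (by omega) _ ?_
    exact mat_mul_deg (mat_mul_deg (fun i j => hρ (v i j)) (dd_deg h hρ u v j)) (hb1 u)

/-- **The comparison theorem.** -/
theorem compare {d' : Type*} [Fintype d'] [DecidableEq d'] (S : Set ℕ)
    (hS : ∀ p ∈ S, p.Prime ∧ ∀ g : G, g ^ p = 1 → g = 1)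
    (hMS : ∀ x : M, x ≠ 0 → ∀ N : ℕ, ∃ p ∈ S, N < p ∧ ¬ ∃ y : M, p • y = x)
    {n : ℕ} (h : IsCycle (2 * n + 1) 𝒜 δ T) (hρ : ∀ a, ρ a ∈ 𝒜 0)
    (hloc : ∀ g : G, g ≠ 1 → (∃ p ∈ S, ∀ j, ∃ x : G, x ^ p ^ j = g) →
      ∀ (a : G) (l : List G), l.length = 2 * n + 1 → a * l.prod = g →
        T (ρ (MonoidAlgebra.single a 1) *
          (l.map fun b => δ (ρ (MonoidAlgebra.single b 1))).prod) = 0)
    (u v : Matrix d d (MonoidAlgebra ℤ G)) (huv : u * v = 1) (hvu : v * u = 1)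
    (u' v' : Matrix d' d' (MonoidAlgebra ℤ G)) (huv' : u' * v' = 1) (hvu' : v' * u' = 1)
    (hl : lam (ab G) v u = lam (ab G) v' u') :
    prg n T δ (v.map ρ) (u.map ρ) = prg n T δ (v'.map ρ) (u'.map ρ) := by
  obtain ⟨τ, hτ⟩ := exists_tau S (fun p hp => (hS p hp).1) hMS h hρ
  have hπ : Function.Surjective (pr G) := fun g => ⟨FreeMonoid.of g, by simp [pr]⟩
  have ha : ∀ x, ∀ a ∈ (Idl ℤ (pr G)) ^ (n + 1), ex (k := ℤ) τ (x * a) = ex τ (a * x) := by
    intro x a ha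
    rw [← sub_eq_zero, tau_ext hτ]
    refine T_mul_delta h (i := 0) (j := 0 + (n + 1)) (by omega) (Wa_one_Ev h hρ x) ?_
    exact Wa_Idl_pow h hρ (n + 1) ha 0 one_Ev
  have hb : ∀ m, n ≤ m → ∀ x ∈ Idl ℤ (pr G), ∀ y ∈ (Idl ℤ (pr G)) ^ m,
      ex (k := ℤ) τ (x * y) = ex τ (y * x) := by
    intro m hm x hx y hy
    rw [← sub_eq_zero, tau_ext hτ]
    refine T_mul_delta h (i := 0 + 1) (j := 0 + m) (by omega) (Wa_Idl h hρ 0 hx one_Ev) ?_
    exact Wa_Idl_pow h hρ m hy 0 one_Ev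
  have hloc' : ∀ f h, pr G f * pr G h ≠ 1 → (∃ p ∈ S, ∀ j, ∃ x : G, x ^ p ^ j = pr G f * pr G h) →
      τ (f * h) = τ (h * f) := by
    intro f f' h1 h2
    rw [← sub_eq_zero, hτ]
    exact T_Se_mul h hρ (pr G f) (pr G f') (fun a l hl hal => hloc _ h1 h2 a l hl hal)
      (Wm_Se h hρ f) (Wm_Se h hρ f')
  have hmem : ∀ {e : Type _} [Fintype e] [DecidableEq e] (u v : Matrix e e (MonoidAlgebra ℤ G)),
      u * v = 1 → ∀ i j, (-(EE u v) ^ (n + 1)) i j ∈ (Idl ℤ (pr G)) ^ (n + 1) := by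
    intro e _ _ u v huv i j
    rw [Matrix.neg_apply]
    exact Submodule.neg_mem _ (EE_pow_mem u v huv (n + 1) i j)
  have hmem' : ∀ (u v : Matrix d' d' (MonoidAlgebra ℤ G)),
      u * v = 1 → ∀ i j, (-(EE u v) ^ (n + 1)) i j ∈ (Idl ℤ (pr G)) ^ (n + 1) := by
    intro u v huv i j
    rw [Matrix.neg_apply]
    exact Submodule.neg_mem _ (EE_pow_mem u v huv (n + 1) i j)
  have key := core S hS hMS (pr G) hπ τ n ha hb hloc' (VV n u v) (u.map (sec ℤ G))
    (by rw [VU_eq]; exact hmem v u hvu) (by rw [UV_eq]; exact hmem u v huv)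
    (VV n u' v') (u'.map (sec ℤ G))
    (by rw [VU_eq]; exact hmem' v' u' hvu') (by rw [UV_eq]; exact hmem' u' v' huv')
    (by rw [pm_VV n u v huv, pm_VV n u' v' huv', pm_map_sec, pm_map_sec, hl])
  rwa [Tm_prg h hρ hτ u v huv, Tm_prg h hρ hτ u' v' huv'] at key

end Pool.Agent.H23R2.Odd
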