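import Pool.Agent.H23R2.Odd.Cycle
import Pool.Agent.H23R2.Lin

/-!
# Odd cycles see an invertible matrix over an integral group ring as a group element
-/

set_option autoImplicit false
set_option linter.unusedSectionVars false
set_option linter.unusedSimpArgs false

namespace Pool.Agent.H23R2.Odd

open Finset Pool.Agent.H23R2 Pool.Agent.H23R2.Cyc Pool.Agent.H23R2.Ch
open scoped Pointwise

variable {G : Type*} [Group G] {M : Type*} [AddCommGroup M]
  {d : Type*} [Fintype d] [DecidableEq d] {Ω : Type*} [Ring Ω]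
  {𝒜 : ℕ → Submodule ℤ Ω} [GradedAlgebra 𝒜] {δ : Ω →ₗ[ℤ] Ω} {T : Ω →ₗ[ℤ] M}
  {ρ : MonoidAlgebra ℤ G →ₐ[ℤ] Ω}

lemma lam_eq {M1 : Type*} [AddCommGroup M1] (a : G → M1) (v u : Matrix d d (MonoidAlgebra ℤ G)) :
    lam a v u = ∑ i, ∑ j, ∑ g ∈ (v i j).coeff.support,
      ((v i j).coeff g * (u j i).coeff g⁻¹) • a g := by
  unfold lam
  refine Finset.sum_congr rfl fun i _ => Finset.sum_congr rfl fun j _ => ?_
  rw [ex_eq_sum]
  refine Finset.sum_congr rfl fun g _ => ?_
  rw [smul_smul]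

/-- the one by one matrix of a ring element -/
def mone {R : Type*} (x : R) : Matrix Unit Unit R := Matrix.of fun _ _ => x

lemma mone_mul {R : Type*} [Ring R] (x y : R) : mone x * mone y = mone (x * y) := by
  ext i j
  simp [mone, Matrix.mul_apply]

lemma mone_one {R : Type*} [Ring R] : mone (1 : R) = 1 := by
  ext i j
  simp [mone]

lemma mone_pow {R : Type*} [Ring R] (x : R) (n : ℕ) : mone x ^ n = mone (x ^ n) := by
  induction n with
  | zero => rw [pow_zero, pow_zero, mone_one]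
  | succ n ih => rw [pow_succ, pow_succ, ih, mone_mul]

lemma mone_trace {R : Type*} [Ring R] (x : R) : (mone x).trace = x := by
  simp [mone, Matrix.trace]

lemma prg_mone (n : ℕ) (a b : Ω) :
    prg n T δ (mone a) (mone b) = T (a * δ b * (δ a * δ b) ^ n) := by
  have h1 : ∀ x : Ω, (mone x).map δ = mone (δ x) := fun x => rfl
  unfold prg
  rw [h1, h1, mone_mul, mone_mul, mone_pow, mone_mul, mone_trace]

/-- **Main theorem.** -/
theorem main_odd (S : Set ℕ)
    (hS : ∀ p ∈ S, p.Prime ∧ ∀ g : G, g ^ p = 1 → g = 1)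
    (hMS : ∀ x : M, x ≠ 0 → ∀ N : ℕ, ∃ p ∈ S, N < p ∧ ¬ ∃ y : M, p • y = x)
    {n : ℕ} (h : IsCycle (2 * n + 1) 𝒜 δ T) (hρ : ∀ a, ρ a ∈ 𝒜 0)
    (hloc : ∀ g : G, g ≠ 1 → (∃ p ∈ S, ∀ j, ∃ x : G, x ^ p ^ j = g) →
      ∀ (a : G) (l : List G), l.length = 2 * n + 1 → a * l.prod = g →
        T (ρ (MonoidAlgebra.single a 1) *
          (l.map fun b => δ (ρ (MonoidAlgebra.single b 1))).prod) = 0)
    (u v : Matrix d d (MonoidAlgebra ℤ G)) (huv : u * v = 1) (hvu : v * u = 1)
    (γ : G) (hγ : lam (ab G) v u = ab G γ⁻¹) :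
    T (v.map ρ * (u.map ρ).map δ * ((v.map ρ).map δ * (u.map ρ).map δ) ^ n).trace =
      T (ρ (MonoidAlgebra.single γ⁻¹ 1) * δ (ρ (MonoidAlgebra.single γ 1)) *
        (δ (ρ (MonoidAlgebra.single γ⁻¹ 1)) * δ (ρ (MonoidAlgebra.single γ 1))) ^ n) := by
  have key := compare S hS hMS h hρ hloc u v huv hvu
    (mone (MonoidAlgebra.single γ 1)) (mone (MonoidAlgebra.single γ⁻¹ 1))
    (by
      rw [mone_mul, MonoidAlgebra.single_mul_single, mul_inv_cancel, one_mul,
        ← MonoidAlgebra.one_def, mone_one])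
    (by
      rw [mone_mul, MonoidAlgebra.single_mul_single, inv_mul_cancel, one_mul,
        ← MonoidAlgebra.one_def, mone_one])
    (by
      rw [hγ]
      unfold lam
      simp [mone, ex_single])
  have h1 : ∀ x : MonoidAlgebra ℤ G, (mone x).map ρ = mone (ρ x) := fun x => rfl
  rw [h1, h1, prg_mone] at key
  exact key

lemma ab_surj (x : Additive (Abelianization G)) : ∃ γ : G, x = ab G γ⁻¹ := by
  obtain ⟨g, hg⟩ := QuotientGroup.mk_surjective (Additive.toMul x)
  refine ⟨g⁻¹, ?_⟩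
  rw [inv_inv]
  exact (congrArg Additive.ofMul hg).symm

end Pool.Agent.H23R2.Odd
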