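import Pool.Agent.H23R2.Odd.Final

/-!
# Reduction to the subgroup generated by the supports
-/

set_option autoImplicit false
set_option linter.unusedSectionVars false

namespace Pool.Agent.H23R2.Odd

open Finset Pool.Agent.H23R2 Pool.Agent.H23R2.Cyc Pool.Agent.H23R2.Ch

universe u1 u2 u3 u4

variable {G : Type u1} [Group G] {r : Type u2} [Fintype r] [DecidableEq r]

/-- the subgroup generated by the supports of the entries of `u` and `v` -/
def supGrp (u v : Matrix r r (MonoidAlgebra ℤ G)) : Subgroup G :=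
  Subgroup.closure {g | ∃ i j, (u i j).coeff g ≠ 0 ∨ (v i j).coeff g ≠ 0}

lemma supGrp_fg (u v : Matrix r r (MonoidAlgebra ℤ G)) : (supGrp u v).FG := by
  classical
  refine ⟨msupp u ∪ msupp v, ?_⟩
  unfold supGrp
  congr 1
  ext g
  simp only [Finset.coe_union, Set.mem_union, Finset.mem_coe, Set.mem_setOf_eq]
  constructor
  · rintro (h | h)
    · unfold msupp at h
      simp only [Finset.mem_biUnion, Finset.mem_univ, true_and, Finsupp.mem_support_iff] at h
      obtain ⟨i, j, h⟩ := h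
      exact ⟨i, j, Or.inl h⟩
    · unfold msupp at h
      simp only [Finset.mem_biUnion, Finset.mem_univ, true_and, Finsupp.mem_support_iff] at h
      obtain ⟨i, j, h⟩ := h
      exact ⟨i, j, Or.inr h⟩
  · rintro ⟨i, j, h | h⟩
    · exact Or.inl (mem_msupp u i j g h)
    · exact Or.inr (mem_msupp v i j g h)

lemma restrict_eq (H : Subgroup G) (x : MonoidAlgebra ℤ G)
    (hx : ∀ g, x.coeff g ≠ 0 → g ∈ H) :
    MonoidAlgebra.mapDomainAlgHom ℤ ℤ H.subtype
      (MonoidAlgebra.comapDomain H.subtype H.subtype_injective x) = x := by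
  refine MonoidAlgebra.mapDomain_comapDomain ?_ _
  intro g hg
  exact ⟨⟨g, hx g (by simpa using hg)⟩, rfl⟩

/-- **The theorem for the subgroup generated by the supports.** -/
theorem main_sub (u v : Matrix r r (MonoidAlgebra ℤ G)) (huv : u * v = 1) (hvu : v * u = 1) :
    ∃ γ ∈ supGrp u v, ∀ (S : Set ℕ),
      (∀ p ∈ S, p.Prime ∧ ∀ g ∈ supGrp u v, g ^ p = 1 → g = 1) →
      ∀ (M : Type u3) [AddCommGroup M],
        (∀ x : M, x ≠ 0 → {p : ℕ | p ∈ S ∧ ¬ ∃ y : M, p • y = x}.Infinite) →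
      ∀ (Ω : Type u4) [Ring Ω] (𝒜 : ℕ → Submodule ℤ Ω) [GradedAlgebra 𝒜]
        (δ : Ω →ₗ[ℤ] Ω) (T : Ω →ₗ[ℤ] M) (n : ℕ), IsCycle (2 * n + 1) 𝒜 δ T →
      ∀ (ρ : MonoidAlgebra ℤ G →ₐ[ℤ] Ω), (∀ a, ρ a ∈ 𝒜 0) →
        (∀ g : G, g ≠ 1 → (∃ p ∈ S, ∀ j : ℕ, ∃ x ∈ supGrp u v, x ^ p ^ j = g) →
          ∀ (g₀ : G) (l : List G), l.length = 2 * n + 1 → g₀ * l.prod = g →
            T (ρ (MonoidAlgebra.single g₀ 1) *
              (l.map fun h => δ (ρ (MonoidAlgebra.single h 1))).prod) = 0) →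
        T (v.map ρ * (u.map ρ).map δ * ((v.map ρ).map δ * (u.map ρ).map δ) ^ n).trace =
          T (ρ (MonoidAlgebra.single γ⁻¹ 1) * δ (ρ (MonoidAlgebra.single γ 1)) *
            (δ (ρ (MonoidAlgebra.single γ⁻¹ 1)) * δ (ρ (MonoidAlgebra.single γ 1))) ^ n) := by
  classical
  set H : Subgroup G := supGrp u v with hHdef
  let j : MonoidAlgebra ℤ H →ₐ[ℤ] MonoidAlgebra ℤ G :=
    MonoidAlgebra.mapDomainAlgHom ℤ ℤ H.subtype
  have hj : Function.Injective j := MonoidAlgebra.mapDomain_injective H.subtype_injective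
  let res : Matrix r r (MonoidAlgebra ℤ G) → Matrix r r (MonoidAlgebra ℤ H) := fun w =>
    Matrix.of fun a b => MonoidAlgebra.comapDomain H.subtype H.subtype_injective (w a b)
  have hres : ∀ w : Matrix r r (MonoidAlgebra ℤ G),
      (∀ a b, ∀ g, (w a b).coeff g ≠ 0 → g ∈ H) → (res w).map j = w := by
    intro w hw
    ext1 a b
    exact restrict_eq H _ (hw a b)
  have hu := hres u (fun a b g hg => Subgroup.subset_closure ⟨a, b, Or.inl hg⟩)
  have hv := hres v (fun a b g hg => Subgroup.subset_closure ⟨a, b, Or.inr hg⟩)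
  have hone : ∀ w w' : Matrix r r (MonoidAlgebra ℤ G), (res w).map j = w → (res w').map j = w' →
      w * w' = 1 → res w * res w' = 1 := by
    intro w w' h1 h2 h3
    have h4 : (res w * res w').map j = (1 : Matrix r r (MonoidAlgebra ℤ H)).map j := by
      rw [Matrix.map_mul, h1, h2, h3]
      ext1 a b
      rw [Matrix.map_apply, Matrix.one_apply, Matrix.one_apply]
      split_ifs <;> simp
    ext1 a b
    apply hj
    exact congrFun (congrFun h4 a) b
  obtain ⟨γ, hγ⟩ := ab_surj (lam (ab H) (res v) (res u))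
  refine ⟨γ.1, γ.2, ?_⟩
  intro S hS M _ hM Ω _ 𝒜 _ δ T n hcyc ρ hρ hloc
  have key := main_odd (G := H) (ρ := ρ.comp j) S
    (by
      intro p hp
      refine ⟨(hS p hp).1, fun g hg => ?_⟩
      apply Subtype.ext
      exact (hS p hp).2 g.1 g.2 (by simpa using congrArg Subtype.val hg))
    (by
      intro x hx N
      obtain ⟨p, ⟨hp, hpx⟩, hN⟩ := (hM x hx).exists_gt N
      exact ⟨p, hp, hN, hpx⟩)
    hcyc (fun a => hρ _)
    (by
      rintro g hg ⟨p, hp, hroot⟩ a l hl hal
      have h1 := hloc g.1 (fun hc => hg (Subtype.ext hc))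
        ⟨p, hp, fun i => by
          obtain ⟨x, hx⟩ := hroot i
          exact ⟨x.1, x.2, by simpa using congrArg Subtype.val hx⟩⟩
        a.1 (l.map Subtype.val) (by simpa using hl) (by
          rw [← hal]
          push_cast
          rfl)
      have h3 : ∀ x : H, (ρ.comp j) (MonoidAlgebra.single x 1) =
          ρ (MonoidAlgebra.single x.1 1) := by
        intro x
        simp [j]
      rw [h3]
      rw [List.map_map] at h1
      have h4 : (l.map fun b => δ ((ρ.comp j) (MonoidAlgebra.single b 1))) =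
          l.map ((fun h => δ (ρ (MonoidAlgebra.single h 1))) ∘ Subtype.val) := by
        refine List.map_congr_left fun b _ => ?_
        rw [h3]
        rfl
      rw [h4]
      exact h1)
    (res u) (res v) (hone u v hu hv huv) (hone v u hv hu hvu) γ hγ
  have h2 : ∀ w : Matrix r r (MonoidAlgebra ℤ G), (res w).map j = w →
      (res w).map (ρ.comp j) = w.map ρ := by
    intro w hw
    conv_rhs => rw [← hw]
    ext1 a b
    simp
  have h3 : ∀ x : H, (ρ.comp j) (MonoidAlgebra.single x 1) = ρ (MonoidAlgebra.single x.1 1) := by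
    intro x
    simp [j]
  rw [h2 u hu, h2 v hv, h3, h3] at key
  exact key

end Pool.Agent.H23R2.Odd
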